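import Pool.Agent.TurSp.Zyk

/-! Triples with exactly one edge: behaviour under moves, and comparison with rooted cliques. -/

set_option linter.unusedSectionVars false

namespace Pool.Agent.TurSp
open Finset

variable {V : Type} [Fintype V] [DecidableEq V]

open Classical in
/-- total weight of the triples that span exactly one edge -/
noncomputable def coch (G : SimpleGraph V) (w : V → ℝ) : ℝ :=
  form (fun T => if ∃ a b u, T = {a, b, u} ∧ G.Adj a b ∧ ¬ G.Adj u a ∧ ¬ G.Adj u b then 1 else 0) w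

open Classical in
/-- weight of the vertices adjacent to exactly one of `u`, `v` -/
noncomputable def dif (G : SimpleGraph V) (u v : V) (w : V → ℝ) : ℝ :=
  ∑ z ∈ univ.filter (fun z => ¬ (G.Adj u z ↔ G.Adj v z)), w z

lemma coch_nonneg (G : SimpleGraph V) {w : V → ℝ} (hw : ∀ x, 0 ≤ w x) : 0 ≤ coch G w :=
  form_nonneg (fun T => by split_ifs <;> norm_num) hw

lemma cl_nonneg (G : SimpleGraph V) (e : ℕ) {w : V → ℝ} (hw : ∀ x, 0 ≤ w x) : 0 ≤ cl G e w :=
  form_nonneg (fun T => by split_ifs <;> norm_num) hw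

lemma cl_le_one (G : SimpleGraph V) (e : ℕ) {w : V → ℝ} (hw : ∀ x, 0 ≤ w x)
    (h1 : ∑ x, w x ≤ 1) : cl G e w ≤ 1 := by
  classical
  refine le_trans ?_ (esym_le_one univ hw h1 e)
  unfold cl esym
  rw [form_ind]
  refine sum_le_sum_of_subset_of_nonneg (fun T hT => ?_) fun T _ _ => prod_nonneg fun x _ => hw x
  exact mem_powersetCard.2 ⟨subset_univ _, (mem_filter.1 hT).2.2⟩

lemma coch_move (G : SimpleGraph V) {m : V → ℝ} (hm : ∀ x, 0 ≤ m x) {u v : V} (h : u ≠ v)
    (hn : ¬ G.Adj u v) :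
    m u * coch G (set2 m u v (m u + m v) 0) + m v * coch G (set2 m u v 0 (m u + m v))
      + (m u + m v) * (m u * m v) * dif G u v m ≤ (m u + m v) * coch G m := by
  classical
  have hn' : ¬ G.Adj v u := fun h => hn h.symm
  set κ : Finset V → ℝ := fun T =>
    if ∃ a b u, T = {a, b, u} ∧ G.Adj a b ∧ ¬ G.Adj u a ∧ ¬ G.Adj u b then 1 else 0 with hκ
  have hc : ∀ w, coch G w = form κ w := fun w => by
    unfold coch; congr
  have e := form_set2 κ m h (m u) (m v)
  rw [set2_self] at e
  have key : dif G u v m ≤ off (fun T => κ (insert u (insert v T))) m u v := by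
    unfold dif off
    set Z := univ.filter (fun z => ¬ (G.Adj u z ↔ G.Adj v z)) with hZ
    have h1 : ∑ z ∈ Z, m z = ∑ T ∈ Z.image (fun z => ({z} : Finset V)),
        κ (insert u (insert v T)) * ∏ x ∈ T, m x := by
      rw [sum_image fun a _ b _ hab => singleton_injective hab]
      refine sum_congr rfl fun z hz => ?_
      have hz := (mem_filter.1 hz).2
      have : κ (insert u (insert v {z})) = 1 := by
        rw [hκ]
        refine if_pos ?_
        by_cases h2 : G.Adj u z
        · refine ⟨u, z, v, by ext x; simp only [mem_insert, mem_singleton]; tauto, h2, hn', ?_⟩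
          exact fun h3 => hz ⟨fun _ => h3, fun _ => h2⟩
        · refine ⟨v, z, u, by ext x; simp only [mem_insert, mem_singleton]; tauto, ?_, hn, h2⟩
          by_contra h3
          exact hz ⟨fun h4 => absurd h4 h2, fun h4 => absurd h4 h3⟩
      rw [this, prod_singleton, one_mul]
    rw [h1]
    refine sum_le_sum_of_subset_of_nonneg (fun T hT => ?_) fun T _ _ =>
      mul_nonneg (by rw [hκ]; dsimp only; split_ifs <;> norm_num) (prod_nonneg fun x _ => hm x)
    obtain ⟨z, hz, rfl⟩ := mem_image.1 hT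
    have hz := (mem_filter.1 hz).2
    rw [mem_powerset, singleton_subset_iff]
    refine mem_erase.2 ⟨fun h2 => hz ?_, mem_erase.2 ⟨fun h2 => hz ?_, mem_univ _⟩⟩
    · rw [h2]; exact ⟨fun h3 => absurd h3 hn, fun h3 => absurd h3 G.irrefl⟩
    · rw [h2]; exact ⟨fun h3 => absurd h3 G.irrefl, fun h3 => absurd h3 hn'⟩
  rw [hc, hc, hc, e, form_set2 κ m h, form_set2 κ m h]
  have := mul_le_mul_of_nonneg_left key
    (mul_nonneg (add_nonneg (hm u) (hm v)) (mul_nonneg (hm u) (hm v)))
  nlinarith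

open Classical in
lemma link_sub_le (G : SimpleGraph V) (e : ℕ) {m : V → ℝ} (hm : ∀ x, 0 ≤ m x)
    (h1 : ∑ x, m x ≤ 1) {a b : V} {R : Finset V} (ha : a ∉ R) (hb : b ∉ R) :
    ∑ T ∈ R.powerset, (if G.IsClique ((insert a T : Finset V) : Set V) ∧ (insert a T).card = e
        then (1 : ℝ) else 0) * ∏ x ∈ T, m x
      - ∑ T ∈ R.powerset, (if G.IsClique ((insert b T : Finset V) : Set V) ∧ (insert b T).card = e
        then (1 : ℝ) else 0) * ∏ x ∈ T, m x ≤ dif G a b m := by
  set Z := univ.filter (fun z => ¬ (G.Adj a z ↔ G.Adj b z)) with hZ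
  refine le_trans ?_ (sum_meet_le hm h1 (e - 1) Z
    (R.powerset.filter (fun T => T.card = e - 1 ∧ ∃ z ∈ Z, z ∈ T)) fun T hT => (mem_filter.1 hT).2)
  rw [← sum_sub_distrib, sum_filter]
  refine sum_le_sum fun T hT => ?_
  have hp : 0 ≤ ∏ x ∈ T, m x := prod_nonneg fun x _ => hm x
  have haT : a ∉ T := fun h => ha (mem_powerset.1 hT h)
  have hbT : b ∉ T := fun h => hb (mem_powerset.1 hT h)
  by_cases h2 : G.IsClique ((insert a T : Finset V) : Set V) ∧ (insert a T).card = e
  · have hcard : T.card + 1 = e := by rw [← h2.2, card_insert_of_notMem haT]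
    by_cases h3 : ∃ z ∈ Z, z ∈ T
    · rw [if_pos h2, if_pos (⟨by omega, h3⟩ : T.card = e - 1 ∧ ∃ z ∈ Z, z ∈ T)]
      split_ifs <;> linarith
    · have h4 : G.IsClique ((insert b T : Finset V) : Set V) ∧ (insert b T).card = e := by
        refine ⟨?_, by rw [card_insert_of_notMem hbT, hcard]⟩
        have h5 : ∀ z ∈ T, G.Adj b z := by
          intro z hz
          have h6 : G.Adj a z ↔ G.Adj b z := by
            by_contra h7
            exact h3 ⟨z, mem_filter.2 ⟨mem_univ _, h7⟩, hz⟩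
          exact h6.1 (h2.1 (by simp) (by simp [hz]) fun h => haT (h ▸ hz))
        intro x hx y hy hxy
        simp only [coe_insert, Set.mem_insert_iff, mem_coe] at hx hy
        rcases hx with rfl | hx <;> rcases hy with rfl | hy
        · exact absurd rfl hxy
        · exact h5 y hy
        · exact (h5 x hx).symm
        · exact h2.1 (by simp [hx]) (by simp [hy]) hxy
      rw [if_pos h2, if_pos h4, sub_self]
      split_ifs; exacts [hp, le_rfl]
  · rw [if_neg h2]
    split_ifs <;> linarith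

lemma dif_comm (G : SimpleGraph V) (u v : V) (w : V → ℝ) : dif G u v w = dif G v u w := by
  classical
  unfold dif
  refine sum_congr ?_ fun _ _ => rfl
  ext z
  simp only [mem_filter, mem_univ, true_and]
  exact not_congr iff_comm

lemma cl_sq_move (G : SimpleGraph V) (e : ℕ) (a : ℝ) {m : V → ℝ} (hm : ∀ x, 0 ≤ m x)
    (h1 : ∑ x, m x ≤ 1) {u v : V} (h : u ≠ v) (hn : ¬ G.Adj u v) :
    m u * (cl G e (set2 m u v (m u + m v) 0) - a) ^ 2
      + m v * (cl G e (set2 m u v 0 (m u + m v)) - a) ^ 2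
      ≤ (m u + m v) * (cl G e m - a) ^ 2 + (m u + m v) * (m u * m v) * dif G u v m := by
  classical
  set κ : Finset V → ℝ := fun T => if G.IsClique (T : Set V) ∧ T.card = e then 1 else 0 with hκ
  have hc : ∀ w, cl G e w = form κ w := fun w => by
    unfold cl; congr
  have hκ0 : ∀ T : Finset V, ¬ G.IsClique (T : Set V) → κ T = 0 := fun T hT => by simp [hκ, hT]
  have e0 := form_aff hκ0 m h hn (m u) (m v)
  rw [set2_self] at e0
  rw [hc, hc, hc, e0, form_aff hκ0 m h hn, form_aff hκ0 m h hn]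
  set Fu := off (fun T => κ (insert u T)) m u v
  set Fv := off (fun T => κ (insert v T)) m u v
  have hu : u ∉ (univ.erase u).erase v := by simp
  have hv : v ∉ (univ.erase u).erase v := by simp
  have d1 : Fu - Fv ≤ dif G u v m := by
    exact link_sub_le G e hm h1 hu hv
  have d2 : Fv - Fu ≤ dif G u v m := by
    have := link_sub_le G e hm h1 hv hu
    rw [dif_comm] at this
    exact this
  have d3 : dif G u v m ≤ 1 :=
    le_trans (sum_le_sum_of_subset_of_nonneg (subset_univ _) fun x _ _ => hm x) h1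
  have d4 : (Fu - Fv) ^ 2 ≤ dif G u v m := by nlinarith
  have := mul_le_mul_of_nonneg_left d4
    (mul_nonneg (add_nonneg (hm u) (hm v)) (mul_nonneg (hm u) (hm v)))
  nlinarith

open Classical in
/-- weight of the cliques of size `k - 2` in the common neighbourhood of `a` and `b` -/
noncomputable def com (G : SimpleGraph V) (k : ℕ) (a b : V) (w : V → ℝ) : ℝ :=
  ∑ T ∈ univ.filter (fun T : Finset V => G.IsClique (T : Set V) ∧ T.card + 2 = k ∧
    ∀ z ∈ T, G.Adj a z ∧ G.Adj b z), ∏ x ∈ T, w x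

lemma cl_le_tau (G : SimpleGraph V) {k : ℕ} (hk : 2 ≤ k) (a b : V) {w : V → ℝ}
    (hw : ∀ x, 0 ≤ w x) (h1 : ∑ x, w x ≤ 1) :
    cl G k w ≤ tau G k a w + tau G k b w + com G k a b w := by
  classical
  have hp : ∀ T : Finset V, 0 ≤ ∏ x ∈ T, w x := fun T => prod_nonneg fun x _ => hw x
  set P : V → Finset V → Prop := fun u T => G.IsClique (T : Set V) ∧ T.card = k ∧
    ∃ x ∈ T, ∃ y ∈ T, x ≠ y ∧ ¬ G.Adj u x ∧ ¬ G.Adj u y with hP
  set A := univ.filter (fun T : Finset V =>
    (G.IsClique (T : Set V) ∧ T.card = k) ∧ ¬ P a T ∧ ¬ P b T) with hA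
  set Gd := univ.filter (fun T : Finset V => G.IsClique (T : Set V) ∧ T.card + 2 = k ∧
    ∀ z ∈ T, G.Adj a z ∧ G.Adj b z) with hGd
  have e1 : cl G k w ≤ tau G k a w + tau G k b w + ∑ T ∈ A, ∏ x ∈ T, w x := by
    unfold cl tau form
    rw [hA, sum_filter, ← sum_add_distrib, ← sum_add_distrib]
    refine sum_le_sum fun T _ => ?_
    have := hp T
    dsimp only
    by_cases c1 : G.IsClique (T : Set V) ∧ T.card = k
    · by_cases c2 : P a T
      · rw [if_pos c1, if_pos c2]; split_ifs <;> linarith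
      · by_cases c3 : P b T
        · rw [if_pos c1, if_neg c2, if_pos c3]; split_ifs <;> linarith
        · rw [if_pos c1, if_neg c2, if_neg c3, if_pos ⟨c1, c2, c3⟩]; linarith
    · rw [if_neg c1]; split_ifs <;> linarith
  set B := ((powersetCard 2 univ) ×ˢ Gd).filter (fun p => Disjoint p.1 p.2) with hB
  have hsub : A ⊆ B.image (fun p => p.1 ∪ p.2) := by
    intro Q hQ
    obtain ⟨⟨hc, hcard⟩, ha, hb⟩ := (mem_filter.1 hQ).2
    have hle : ∀ u, ¬ P u Q → (Q.filter (fun z => ¬ G.Adj u z)).card ≤ 1 := by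
      intro u hu
      rw [card_le_one]
      intro x hx y hy
      by_contra hxy
      exact hu ⟨hc, hcard, x, (mem_filter.1 hx).1, y, (mem_filter.1 hy).1, hxy,
        (mem_filter.1 hx).2, (mem_filter.1 hy).2⟩
    obtain ⟨D, hD1, hD2, hD3⟩ := exists_subsuperset_card_eq
      (s := Q.filter (fun z => ¬ G.Adj a z) ∪ Q.filter (fun z => ¬ G.Adj b z)) (t := Q) (n := 2)
      (union_subset (filter_subset _ _) (filter_subset _ _))
      (le_trans (card_union_le _ _) (by have := hle a ha; have := hle b hb; omega)) (by omega)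
    refine mem_image.2 ⟨(D, Q \ D), mem_filter.2 ⟨mem_product.2 ⟨mem_powersetCard.2
      ⟨subset_univ _, hD3⟩, mem_filter.2 ⟨mem_univ _, hc.subset (by simp), ?_, fun z hz => ?_⟩⟩,
      disjoint_sdiff⟩, union_sdiff_of_subset hD2⟩
    · have := card_sdiff_add_card_eq_card hD2
      simp only; omega
    · obtain ⟨h2, h3⟩ := mem_sdiff.1 hz
      constructor <;> by_contra h4
      · exact h3 (hD1 (mem_union_left _ (mem_filter.2 ⟨h2, h4⟩)))
      · exact h3 (hD1 (mem_union_right _ (mem_filter.2 ⟨h2, h4⟩)))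
  have e2 : ∑ T ∈ A, ∏ x ∈ T, w x ≤ esym 2 univ w * com G k a b w := by
    refine le_trans (sum_le_sum_of_subset_of_nonneg hsub fun T _ _ => hp T) ?_
    refine le_trans (sum_image_le_of_nonneg (f := fun T => ∏ x ∈ T, w x) fun T _ => hp T) ?_
    have : ∑ p ∈ B, ∏ x ∈ p.1 ∪ p.2, w x = ∑ p ∈ B, (∏ x ∈ p.1, w x) * ∏ x ∈ p.2, w x :=
      sum_congr rfl fun p hp => prod_union (mem_filter.1 hp).2
    rw [this]
    refine le_trans (sum_le_sum_of_subset_of_nonneg (filter_subset _ _)
      fun p _ _ => mul_nonneg (hp _) (hp _)) (le_of_eq ?_)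
    rw [sum_product' (f := fun S T => (∏ x ∈ S, w x) * ∏ x ∈ T, w x)]
    unfold esym com
    rw [sum_mul_sum]
  have e3 := esym_le_one univ hw h1 2
  have e4 : 0 ≤ com G k a b w := sum_nonneg fun T _ => hp T
  nlinarith

open Classical in
lemma com_le (G : SimpleGraph V) (k : ℕ) (u : V) {w : V → ℝ} (hw : ∀ x, 0 ≤ w x) :
    ∑ a, ∑ b, (if G.Adj a b ∧ ¬ G.Adj u a ∧ ¬ G.Adj u b then w a * w b * com G k a b w else 0)
      ≤ (k : ℝ) ^ 2 * tau G k u w := by
  have hp : ∀ T : Finset V, 0 ≤ ∏ x ∈ T, w x := fun T => prod_nonneg fun x _ => hw x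
  set A := univ.filter (fun T : Finset V => G.IsClique (T : Set V) ∧ T.card = k ∧
    ∃ x ∈ T, ∃ y ∈ T, x ≠ y ∧ ¬ G.Adj u x ∧ ¬ G.Adj u y) with hA
  have e1 : tau G k u w = ∑ T ∈ A, ∏ x ∈ T, w x := by unfold tau; rw [form_ind]
  have e2 : ∀ a b, (if G.Adj a b ∧ ¬ G.Adj u a ∧ ¬ G.Adj u b then w a * w b * com G k a b w else 0)
      ≤ ∑ T ∈ A, if a ∈ T ∧ b ∈ T then ∏ x ∈ T, w x else 0 := by
    intro a b
    split_ifs with h
    · obtain ⟨hab, ha, hb⟩ := h
      rw [← sum_filter]
      unfold com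
      set Gd := univ.filter (fun T : Finset V => G.IsClique (T : Set V) ∧ T.card + 2 = k ∧
        ∀ z ∈ T, G.Adj a z ∧ G.Adj b z) with hGd
      have hna : ∀ T ∈ Gd, a ∉ insert b T := fun T hT h => (mem_insert.1 h).elim hab.ne
        fun h => G.irrefl ((mem_filter.1 hT).2.2.2 a h).1
      have hnb : ∀ T ∈ Gd, b ∉ T := fun T hT h => G.irrefl ((mem_filter.1 hT).2.2.2 b h).2
      have e3 : w a * w b * ∑ T ∈ Gd, ∏ x ∈ T, w x
          = ∑ T ∈ Gd.image (fun T => insert a (insert b T)), ∏ x ∈ T, w x := by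
        rw [sum_image, mul_sum]
        · refine sum_congr rfl fun T hT => ?_
          rw [prod_insert (hna T hT), prod_insert (hnb T hT), mul_assoc]
        · intro T hT T' hT' h
          have h1 := congrArg (fun S => (S.erase a).erase b) h
          simp only at h1
          rwa [erase_insert (hna T hT), erase_insert (hna T' hT'), erase_insert (hnb T hT),
            erase_insert (hnb T' hT')] at h1
      rw [e3]
      refine sum_le_sum_of_subset_of_nonneg (fun S hS => ?_) fun T _ _ => hp T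
      obtain ⟨T, hT, rfl⟩ := mem_image.1 hS
      obtain ⟨hc, hcard, hz⟩ := (mem_filter.1 hT).2
      refine mem_filter.2 ⟨mem_filter.2 ⟨mem_univ _, ?_, ?_, a, by simp, b, by simp, hab.ne, ha, hb⟩,
        by simp, by simp⟩
      · intro x hx y hy hxy
        simp only [coe_insert, Set.mem_insert_iff, mem_coe] at hx hy
        rcases hx with rfl | rfl | hx <;> rcases hy with rfl | rfl | hy
        · exact absurd rfl hxy
        · exact hab
        · exact (hz y hy).1
        · exact hab.symm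
        · exact absurd rfl hxy
        · exact (hz y hy).2
        · exact (hz x hx).1.symm
        · exact (hz x hx).2.symm
        · exact hc hx hy hxy
      · rw [card_insert_of_notMem (hna T hT), card_insert_of_notMem (hnb T hT)]; omega
    · exact sum_nonneg fun T _ => by split_ifs; exacts [hp T, le_rfl]
  refine le_trans (sum_le_sum fun a _ => sum_le_sum fun b _ => e2 a b) (le_of_eq ?_)
  rw [e1, mul_sum, sum_congr rfl fun a _ => sum_comm, sum_comm]
  refine sum_congr rfl fun T hT => ?_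
  have hk : T.card = k := (mem_filter.1 hT).2.2.1
  have : ∀ a b, (if a ∈ T ∧ b ∈ T then ∏ x ∈ T, w x else 0)
      = (if a ∈ T then (1 : ℝ) else 0) * ((if b ∈ T then (1 : ℝ) else 0) * ∏ x ∈ T, w x) := by
    intro a b
    by_cases h1 : a ∈ T <;> by_cases h2 : b ∈ T <;> simp [h1, h2]
  simp only [this, ← mul_sum, ← sum_mul]
  simp [hk]; ring

/-- many one-edge triples and many cliques give many rooted cliques -/
lemma coch_mul_cl (G : SimpleGraph V) {k : ℕ} (hk : 2 ≤ k) {w : V → ℝ}
    (hw : ∀ x, 0 ≤ w x) (h1 : ∑ x, w x ≤ 1) :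
    coch G w * cl G k w ≤ (2 + (k : ℝ) ^ 2) * ∑ u, w u * tau G k u w := by
  classical
  have hp : ∀ T : Finset V, 0 ≤ ∏ x ∈ T, w x := fun T => prod_nonneg fun x _ => hw x
  have hS : 0 ≤ ∑ x, w x := sum_nonneg fun x _ => hw x
  have e1 : coch G w ≤ ∑ u, ∑ a, ∑ b,
      if G.Adj a b ∧ ¬ G.Adj u a ∧ ¬ G.Adj u b then w u * (w a * w b) else 0 := by
    unfold coch
    rw [form_ind]
    set B := (univ : Finset (V × V × V)).filter
      (fun p => G.Adj p.2.1 p.2.2 ∧ ¬ G.Adj p.1 p.2.1 ∧ ¬ G.Adj p.1 p.2.2) with hB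
    have hsub : univ.filter (fun T : Finset V => ∃ a b u, T = {a, b, u} ∧ G.Adj a b ∧
        ¬ G.Adj u a ∧ ¬ G.Adj u b) ⊆ B.image (fun p => {p.2.1, p.2.2, p.1}) := by
      intro T hT
      obtain ⟨a, b, u, rfl, h⟩ := (mem_filter.1 hT).2
      exact mem_image.2 ⟨(u, a, b), mem_filter.2 ⟨mem_univ _, h⟩, rfl⟩
    refine le_trans (sum_le_sum_of_subset_of_nonneg hsub fun T _ _ => hp T) ?_
    refine le_trans (sum_image_le_of_nonneg (f := fun T => ∏ x ∈ T, w x) fun T _ => hp T)
      (le_of_eq ?_)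
    rw [hB, sum_filter, Fintype.sum_prod_type]
    refine sum_congr rfl fun u _ => ?_
    rw [Fintype.sum_prod_type]
    refine sum_congr rfl fun a _ => sum_congr rfl fun b _ => ?_
    split_ifs with h
    · obtain ⟨hab, ha, hb⟩ := h
      simp only at hab ha hb ⊢
      have h2 : a ≠ u := fun h => hb (h ▸ hab)
      have h3 : b ≠ u := fun h => ha (h ▸ hab.symm)
      rw [prod_insert (by simp [hab.ne, h2]), prod_insert (by simp [h3]), prod_singleton]; ring
    · rfl
  have hτ : ∀ u, 0 ≤ tau G k u w := fun u => tau_nonneg G k u hw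
  have hX : 0 ≤ ∑ u, w u * tau G k u w := sum_nonneg fun u _ => mul_nonneg (hw u) (hτ u)
  refine le_trans (mul_le_mul_of_nonneg_right e1 (cl_nonneg G k hw)) ?_
  have e2 : (∑ u, ∑ a, ∑ b,
      if G.Adj a b ∧ ¬ G.Adj u a ∧ ¬ G.Adj u b then w u * (w a * w b) else 0) * cl G k w
      ≤ ∑ u, ∑ a, ∑ b, (w u * (w a * tau G k a w) * w b + w u * w a * (w b * tau G k b w)
        + w u * (if G.Adj a b ∧ ¬ G.Adj u a ∧ ¬ G.Adj u b
          then w a * w b * com G k a b w else 0)) := by
    simp only [sum_mul]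
    refine sum_le_sum fun u _ => sum_le_sum fun a _ => sum_le_sum fun b _ => ?_
    have h0 : 0 ≤ w u * (w a * w b) := mul_nonneg (hw u) (mul_nonneg (hw a) (hw b))
    split_ifs
    · have := mul_le_mul_of_nonneg_left (cl_le_tau G hk a b hw h1) h0
      linarith
    · have := mul_nonneg h0 (hτ a)
      have := mul_nonneg h0 (hτ b)
      nlinarith
  refine le_trans e2 ?_
  simp only [sum_add_distrib, ← mul_sum, ← sum_mul]
  have e3 : ∑ u, w u * ∑ a, ∑ b, (if G.Adj a b ∧ ¬ G.Adj u a ∧ ¬ G.Adj u b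
      then w a * w b * com G k a b w else 0) ≤ (k : ℝ) ^ 2 * ∑ u, w u * tau G k u w := by
    rw [mul_sum]
    refine sum_le_sum fun u _ => ?_
    have := mul_le_mul_of_nonneg_left (com_le G k u hw) (hw u)
    linarith
  have e4 : (∑ x, w x) * (∑ x, w x) ≤ 1 := by nlinarith
  have e5 := mul_le_mul_of_nonneg_right e4 hX
  nlinarith

end Pool.Agent.TurSp
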