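import Mathlib

/-! Graphons, clique densities, the tail and the explicit weights. -/

namespace Pool.Agent.TurSp
open MeasureTheory

/-- measurable symmetric functions from the unit square to the unit interval -/
def IsGraphon (W : unitInterval → unitInterval → ℝ) : Prop :=
  Measurable (Function.uncurry W) ∧ (∀ x y, W x y = W y x) ∧ ∀ x y, 0 ≤ W x y ∧ W x y ≤ 1

/-- the density `t(K_r, W)` -/
noncomputable def tK (r : ℕ) (W : unitInterval → unitInterval → ℝ) : ℝ :=
  ∫ x : Fin r → unitInterval,
    ∏ p ∈ Finset.univ.filter (fun p : Fin r × Fin r => p.1 < p.2), W (x p.1) (x p.2)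

/-- one coordinate of the tail -/
noncomputable def tail (e : ℕ) (x : ℝ) : ℝ := ∏ j ∈ Finset.Ico 1 e, (1 - (j : ℝ) * x)

/-- the coefficient of `t(K_e, W)` in the `j`-th weight -/
noncomputable def coef (j e : ℕ) : ℝ :=
  (-1) ^ (e + j) * (e.choose j : ℝ) * (j : ℝ) ^ (e - 1) / ((e - 1).factorial : ℝ)

/-- the `j`-th weight of a graphon -/
noncomputable def weight (j : ℕ) (W : unitInterval → unitInterval → ℝ) : ℝ :=
  ∑' e : ℕ, coef j e * tK e W

/-- the convex hull of the all-ones vector and the points of the tail at `1/k` -/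
noncomputable def hull {m : ℕ} (e : Fin m → ℕ) : Set (Fin m → ℝ) :=
  convexHull ℝ (insert (1 : Fin m → ℝ)
    (Set.range fun k : ℕ => fun i : Fin m => tail (e i) (1 / ((k : ℝ) + 1))))

end Pool.Agent.TurSp
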