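import Pool.Agent.TurSp.Count

/-! The uniform lower bound for finite weighted graphs. -/

set_option linter.unusedSectionVars false

namespace Pool.Agent.TurSp
open Finset

variable {V : Type} [Fintype V] [DecidableEq V]

lemma gap_of_var {y : V → ℝ} (hy : ∀ x, 0 ≤ y x) (hs : ∑ x, y x = 1) {η : ℝ} (hη : 0 < η)
    (_hη1 : η ≤ 1) (h : 4 * η ≤ 6 * esym 3 univ y - 8 * esym 2 univ y ^ 2 + 2 * esym 2 univ y) :
    ∃ q, η ≤ ∑ b ∈ univ.filter (fun b => y b + η ≤ y q), y b := by
  obtain ⟨-, h2, h3⟩ := esym_two univ y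
  rw [hs] at h2 h3
  have hne : (univ : Finset V).Nonempty := by
    by_contra h0
    rw [not_nonempty_iff_eq_empty] at h0
    rw [h0] at hs; simp at hs
  obtain ⟨q, -, hq⟩ := exists_max_image univ y hne
  refine ⟨q, ?_⟩
  have hq1 : y q ≤ 1 := by rw [← hs]; exact single_le_sum (fun x _ => hy x) (mem_univ q)
  have e1 : ∑ x, y x * (y x - y q) ^ 2
      = ∑ x, y x ^ 3 - 2 * y q * ∑ x, y x ^ 2 + y q ^ 2 * ∑ x, y x := by
    rw [mul_sum, mul_sum, ← sum_sub_distrib, ← sum_add_distrib]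
    exact sum_congr rfl fun x _ => by ring
  have e2 : ∑ x, y x * (y x - y q) ^ 2
      ≤ ∑ x, ((if y x + η ≤ y q then y x else 0) + η * y x) := by
    refine sum_le_sum fun x _ => ?_
    have h4 := hq x (mem_univ _)
    have h5 := hy x
    split_ifs with h6
    · have : (y x - y q) ^ 2 ≤ 1 := by nlinarith
      nlinarith
    · have : (y x - y q) ^ 2 ≤ η := by nlinarith
      nlinarith
  rw [sum_add_distrib, ← sum_filter, ← mul_sum, hs, e1, hs] at e2
  have e3 : esym 2 univ y = (1 - ∑ x, y x ^ 2) / 2 := by linarith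
  rw [e3] at h
  nlinarith [sq_nonneg (y q - ∑ x, y x ^ 2)]

/-- few one-edge triples: the clique weights hardly move under symmetrisation -/
lemma few (G : SimpleGraph V) (c : ℕ → ℝ) (H : ∀ j, 1 ≤ j → 0 ≤ tur c j) (k : ℕ) {η D : ℝ}
    (hη : 0 < η) (hD0 : 0 ≤ D)
    (hD : ∀ (y : V → ℝ) (q : V), (∀ x, 0 ≤ y x) → ∑ x, y x = 1 → η ≤ esym k univ y →
      η ≤ ∑ b ∈ univ.filter (fun b => y b + η ≤ y q), y b → D ≤ lam c y)
    {w : V → ℝ} (hw : ∀ x, 0 ≤ w x) (hs : ∑ x, w x = 1) (hk : 2 * η ≤ cl G k w)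
    (hg : 28 * η ≤ 6 * cl G 3 w - 8 * cl G 2 w ^ 2 + 2 * cl G 2 w) :
    D - 3 * D / η ^ 2 * coch G w ≤ lamG G c w := by
  have hη1 : η ≤ 1 := by linarith [cl_le_one G k hw hs.le]
  have hM : 0 ≤ D / η ^ 2 := by positivity
  have := zykov G 1 (fun m => lamG G c m + D / η ^ 2 * ((cl G 2 m - cl G 2 w) ^ 2
      + (cl G 3 m - cl G 3 w) ^ 2 + (cl G k m - cl G k w) ^ 2 + 3 * coch G m) - D)
    (fun m hm hs a b hab hn => by
      have h1 := lamG_move G c 0 m hab hn
      simp only [zero_add] at h1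
      have h2 := cl_sq_move G 2 (cl G 2 w) hm hs.le hab hn
      have h3 := cl_sq_move G 3 (cl G 3 w) hm hs.le hab hn
      have h4 := cl_sq_move G k (cl G k w) hm hs.le hab hn
      have h5 := coch_move G hm hab hn
      have h6 := mul_le_mul_of_nonneg_left
        (add_le_add (add_le_add (add_le_add h2 h3) h4)
          (mul_le_mul_of_nonneg_left h5 (by norm_num : (0 : ℝ) ≤ 3))) hM
      nlinarith)
    (fun y hy hs hc => by
      have h0 := coch_nonneg G hy
      by_cases hQ : η ^ 2 ≤ (cl G 2 y - cl G 2 w) ^ 2 + (cl G 3 y - cl G 3 w) ^ 2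
          + (cl G k y - cl G k w) ^ 2
      · have h1 := lamG_nonneg G c H hy hs
        have h2 : D / η ^ 2 * η ^ 2 = D := by field_simp
        have h3 := mul_le_mul_of_nonneg_left (by linarith : η ^ 2 ≤ (cl G 2 y - cl G 2 w) ^ 2
          + (cl G 3 y - cl G 3 w) ^ 2 + (cl G k y - cl G k w) ^ 2 + 3 * coch G y) hM
        linarith
      · push Not at hQ
        have s2 := sq_nonneg (cl G 2 y - cl G 2 w)
        have s3 := sq_nonneg (cl G 3 y - cl G 3 w)
        have sk := sq_nonneg (cl G k y - cl G k w)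
        have a2 := abs_le_of_sq_le_sq' (by linarith : (cl G 2 y - cl G 2 w) ^ 2 ≤ η ^ 2) hη.le
        have a3 := abs_le_of_sq_le_sq' (by linarith : (cl G 3 y - cl G 3 w) ^ 2 ≤ η ^ 2) hη.le
        have ak := abs_le_of_sq_le_sq' (by linarith : (cl G k y - cl G k w) ^ 2 ≤ η ^ 2) hη.le
        have b1 := cl_le_one G 2 hy hs.le
        have b2 := cl_le_one G 2 hw (le_of_eq ‹∑ x, w x = 1›)
        have b3 := cl_nonneg G 2 hy
        have b4 := cl_nonneg G 2 hw
        have h4 : 4 * η ≤ 6 * cl G 3 y - 8 * cl G 2 y ^ 2 + 2 * cl G 2 y := by nlinarith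
        rw [cl_eq 3 hy hc, cl_eq 2 hy hc] at h4
        obtain ⟨q, hq⟩ := gap_of_var hy hs hη hη1 h4
        have h5 := hD y q hy hs (by rw [← cl_eq k hy hc]; linarith) hq
        rw [← lamG_eq c hy hc] at h5
        have h6 := mul_nonneg hM (by linarith : 0 ≤ (cl G 2 y - cl G 2 w) ^ 2
          + (cl G 3 y - cl G 3 w) ^ 2 + (cl G k y - cl G k w) ^ 2 + 3 * coch G y)
        linarith) w hw hs
  simp only [sub_self] at this
  have e : 3 * D / η ^ 2 * coch G w = D / η ^ 2 * (0 ^ 2 + 0 ^ 2 + 0 ^ 2 + 3 * coch G w) := by ring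
  linarith

open Classical in
/-- auxiliary quadratic form used to create a heavy vertex -/
noncomputable def theta (G : SimpleGraph V) (τ a : V → ℝ) : ℝ :=
  (∑ x, a x * τ x) / 2 - ∑ x, ∑ y, a x * a y * (if G.Adj x y then τ x else 0)

lemma theta_aff (G : SimpleGraph V) (τ a : V → ℝ) {u v : V} (h : u ≠ v) (hn : ¬ G.Adj u v) :
    ∃ A B C : ℝ, ∀ s t, theta G τ (set2 a u v s t) = A + s * B + t * C := by
  classical
  have hn' : ¬ G.Adj v u := fun h => hn h.symm
  set R := (univ.erase u).erase v with hR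
  set g : V → V → ℝ := fun x y => if G.Adj x y then τ x else 0 with hg
  refine ⟨(∑ x ∈ R, a x * τ x) / 2 - ∑ x ∈ R, ∑ y ∈ R, a x * a y * g x y,
    τ u / 2 - ∑ y ∈ R, a y * g u y - ∑ x ∈ R, a x * g x u,
    τ v / 2 - ∑ y ∈ R, a y * g v y - ∑ x ∈ R, a x * g x v, fun s t => ?_⟩
  have hx : ∀ x ∈ R, set2 a u v s t x = a x := fun x hx => by
    simp only [hR, mem_erase] at hx
    exact set2_ne a hx.2.1 hx.1 s t
  have e1 : ∑ x, set2 a u v s t x * τ x = s * τ u + t * τ v + ∑ x ∈ R, a x * τ x := by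
    rw [sum_split _ h, set2_u a h, set2_v]
    congr 1
    exact sum_congr rfl fun x hx' => by rw [hx x hx']
  have e2 : ∀ x (z : ℝ), ∑ y, z * set2 a u v s t y * g x y
      = z * s * g x u + z * t * g x v + z * ∑ y ∈ R, a y * g x y := by
    intro x z
    rw [sum_split _ h, set2_u a h, set2_v, mul_sum]
    congr 1
    exact sum_congr rfl fun y hy => by rw [hx y hy]; ring
  have e3 : ∑ x, ∑ y, set2 a u v s t x * set2 a u v s t y * g x y
      = s * ∑ y ∈ R, a y * g u y + t * ∑ y ∈ R, a y * g v y + (s * ∑ x ∈ R, a x * g x u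
        + t * ∑ x ∈ R, a x * g x v + ∑ x ∈ R, ∑ y ∈ R, a x * a y * g x y) := by
    rw [sum_split _ h, e2, e2, set2_u a h, set2_v]
    have g1 : g u u = 0 := by simp [hg]
    have g2 : g u v = 0 := by simp [hg, hn]
    have g3 : g v u = 0 := by simp [hg, hn']
    have g4 : g v v = 0 := by simp [hg]
    rw [g1, g2, g3, g4]
    congr 1
    · ring
    · rw [mul_sum, mul_sum, ← sum_add_distrib, ← sum_add_distrib]
      refine sum_congr rfl fun x hx' => ?_
      rw [e2, hx x hx', mul_sum]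
      have : ∑ y ∈ R, a x * (a y * g x y) = ∑ y ∈ R, a x * a y * g x y :=
        sum_congr rfl fun y _ => by ring
      rw [this]; ring
  unfold theta
  rw [e1]
  change _ - ∑ x, ∑ y, set2 a u v s t x * set2 a u v s t y * g x y = _
  rw [e3]; ring

open Classical in
lemma theta_eq (G : SimpleGraph V) (τ a : V → ℝ) (hs : ∑ x, a x = 1 / 2) :
    theta G τ a = ∑ x, a x * τ x * ∑ y ∈ univ.filter (fun y => ¬ G.Adj x y), a y := by
  unfold theta
  rw [sum_div, ← sum_sub_distrib]
  refine sum_congr rfl fun x _ => ?_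
  have e1 := sum_filter_add_sum_filter_not univ (fun y => G.Adj x y) a
  have e2 : ∑ y, a x * a y * (if G.Adj x y then τ x else 0)
      = a x * τ x * ∑ y ∈ univ.filter (fun y => G.Adj x y), a y := by
    rw [sum_filter, mul_sum]
    refine sum_congr rfl fun y _ => ?_
    split_ifs <;> ring
  rw [e2]
  have : ∑ y ∈ univ.filter (fun y => ¬ G.Adj x y), a y
      = 1 / 2 - ∑ y ∈ univ.filter (fun y => G.Adj x y), a y := by linarith
  rw [this]; ring

/-- many rooted cliques -/
lemma many (G : SimpleGraph V) (c : ℕ → ℝ) (H : ∀ j, 1 ≤ j → 0 ≤ tur c j) (k : ℕ) {η D : ℝ}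
    (hη : 0 < η) (hD0 : 0 ≤ D)
    (hD : ∀ (y : V → ℝ) (q : V), (∀ x, 0 ≤ y x) → ∑ x, y x = 1 → η ≤ esym k univ y →
      η ≤ ∑ b ∈ univ.filter (fun b => y b + η ≤ y q), y b → D ≤ lam c y)
    {r : V → ℝ} (hr : ∀ x, 0 ≤ r x) (hs : ∑ x, r x = 1 / 2) :
    D * η * ((∑ x, r x * tau G k x r) ^ 2 - 2 * η) ≤ lamG G c (r + r) := by
  classical
  set τ : V → ℝ := fun x => tau G k x r with hτ
  have hτ0 : ∀ x, 0 ≤ τ x := fun x => tau_nonneg G k x hr
  have hτ1 : ∀ x, τ x ≤ 1 := fun x =>
    le_trans (tau_le_esym G k x hr) (esym_le_one univ hr (by linarith) k)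
  have hDη : 0 ≤ D * η := mul_nonneg hD0 hη.le
  have key := zykov G (1 / 2) (fun a => lamG G c (r + a) - D * η * (theta G τ a - 2 * η))
    (fun m _ _ a b hab hn => by
      have h1 := lamG_move G c r m hab hn
      obtain ⟨A, B, C, h2⟩ := theta_aff G τ m hab hn
      have h3 := h2 (m a) (m b)
      rw [set2_self] at h3
      simp only [h2, h3]
      nlinarith)
    (fun a ha hsa hc => by
      have hsum : ∑ x, (r + a) x = 1 := by
        simp only [Pi.add_apply]; rw [sum_add_distrib, hs, hsa]; norm_num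
      have hra : ∀ x, 0 ≤ (r + a) x := fun x => add_nonneg (hr x) (ha x)
      have e1 : theta G τ a = ∑ x, a x * (a x * τ x) := by
        rw [theta_eq G τ a hsa]
        refine sum_congr rfl fun x _ => ?_
        by_cases hx : a x = 0
        · simp [hx]
        have hx' : 0 < a x := lt_of_le_of_ne (ha x) (Ne.symm hx)
        have hxx : x ∈ univ.filter (fun y => ¬ G.Adj x y) := mem_filter.2 ⟨mem_univ _, G.irrefl⟩
        rw [sum_eq_single x (fun y hy hyx => ?_) (fun h => absurd hxx h)]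
        · ring
        · by_contra hne
          exact (mem_filter.1 hy).2 (hc x y (Ne.symm hyx) hx' (lt_of_le_of_ne (ha y) (Ne.symm hne)))
      have ha1 : ∀ x, a x ≤ 1 / 2 := fun x => by
        rw [← hsa]; exact single_le_sum (fun x _ => ha x) (mem_univ x)
      by_cases hex : ∃ u, 2 * η ≤ a u * τ u
      · obtain ⟨u, hu⟩ := hex
        have h1 : η ≤ a u := by nlinarith [ha u, hτ1 u]
        have h2 : 2 * η ≤ τ u := by nlinarith [hτ0 u, ha1 u]
        set m : V → ℝ := fun x => r x + (if x = u then 0 else a x) with hm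
        have e2 : r + a = sp u (a u) + m := by
          funext x
          by_cases hx : x = u <;> simp [hm, sp, hx]; ring
        have hrm : ∀ x, r x ≤ m x := fun x => by
          simp only [hm]; split_ifs <;> linarith [ha x]
        have hm0 : ∀ x, 0 ≤ m x := fun x => le_trans (hr x) (hrm x)
        have hms : ∑ x, m x = 1 - a u := by
          rw [e2] at hsum
          simp only [Pi.add_apply] at hsum
          rw [sum_add_distrib, sum_sp] at hsum
          linarith
        have h3 := heavy G c H k hη hD0 hD u h1 hm0 hms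
        have h4 : τ u ≤ tau G k u m := tau_mono G k u hr hrm
        have h5 : theta G τ a ≤ 1 := by
          rw [e1]
          refine le_trans (sum_le_sum (g := a) fun x _ => ?_) (by linarith)
          have := mul_le_mul (ha1 x) (hτ1 x) (hτ0 x) (by norm_num)
          nlinarith [ha x]
        rw [e2]
        have h6 := mul_le_mul_of_nonneg_left (by linarith : η ≤ tau G k u m - η) hD0
        have h7 := mul_le_mul_of_nonneg_left (by linarith : theta G τ a - 2 * η ≤ 1) hDη
        linarith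
      · push Not at hex
        have h5 : theta G τ a ≤ 2 * η := by
          rw [e1]
          refine le_trans (sum_le_sum (g := fun x => a x * (2 * η)) fun x _ =>
            mul_le_mul_of_nonneg_left (hex x).le (ha x)) ?_
          rw [← sum_mul, hsa]; linarith
        have h6 := mul_nonneg hDη (by linarith : 0 ≤ 2 * η - theta G τ a)
        have h7 := lamG_nonneg G c H hra hsum
        linarith) r hr hs
  have e1 : ∑ x, r x * τ x ^ 2 ≤ theta G τ r := by
    rw [theta_eq G τ r hs]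
    refine sum_le_sum fun x _ => ?_
    have h1 : τ x ≤ ∑ y ∈ univ.filter (fun y => ¬ G.Adj x y), r y :=
      le_trans (tau_le G k x x hr (by linarith)) (sum_le_sum_of_subset_of_nonneg
        (fun z hz => mem_filter.2 ⟨mem_univ _, (mem_filter.1 hz).2.1⟩) fun y _ _ => hr y)
    have := mul_le_mul_of_nonneg_left h1 (mul_nonneg (hr x) (hτ0 x))
    nlinarith
  have e2 : (∑ x, r x * τ x) ^ 2 ≤ (∑ x, r x) * ∑ x, r x * τ x ^ 2 :=
    sum_sq_le_sum_mul_sum_of_sq_le_mul univ (fun x _ => hr x)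
      (fun x _ => mul_nonneg (hr x) (sq_nonneg _)) fun x _ => le_of_eq (by ring)
  have e3 : 0 ≤ ∑ x, r x * τ x ^ 2 := sum_nonneg fun x _ => mul_nonneg (hr x) (sq_nonneg _)
  rw [hs] at e2
  have e4 := mul_le_mul_of_nonneg_left
    (by linarith : (∑ x, r x * τ x) ^ 2 - 2 * η ≤ theta G τ r - 2 * η) hDη
  linarith

lemma form_half {κ : Finset V → ℝ} {e : ℕ} (hκ : ∀ T, κ T ≠ 0 → T.card = e) (w : V → ℝ) :
    form κ (fun x => w x / 2) = form κ w / 2 ^ e := by
  unfold form
  rw [sum_div]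
  refine sum_congr rfl fun T _ => ?_
  by_cases h : κ T = 0
  · simp [h]
  · rw [prod_div_distrib, prod_const, hκ T h]; ring

/-- the uniform bound for finite weighted graphs -/
theorem finite_bound {k : ℕ} (hk : 2 ≤ k) {η : ℝ} (hη : 0 < η) : ∃ C : ℝ, 0 < C ∧
    ∀ (V : Type) [Fintype V] [DecidableEq V] (G : SimpleGraph V) (c : ℕ → ℝ) (w : V → ℝ) (j : ℕ),
      (∀ i, 1 ≤ i → 0 ≤ tur c i) → 1 ≤ j → j ≤ k → (∀ x, 0 ≤ w x) → ∑ x, w x = 1 →
      η ≤ cl G k w → η ≤ 6 * cl G 3 w - 8 * cl G 2 w ^ 2 + 2 * cl G 2 w →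
      C * tur c j ≤ lamG G c w := by
  set ρ : ℝ := η / 28 with hρ
  have hρ0 : 0 < ρ := by positivity
  set β : ℝ := (ρ ^ 2 / 6 / 2 ^ 3) * (η / 2 ^ k) / (2 + (k : ℝ) ^ 2) with hβ
  have hβ0 : 0 < β := by positivity
  obtain ⟨C1, hC1, h1⟩ := gap_bound k hρ0
  obtain ⟨C2, hC2, h2⟩ := gap_bound k (by positivity : 0 < β ^ 2 / 4)
  refine ⟨min (C1 / 2) (C2 * (β ^ 2 / 4) * (β ^ 2 / 2)), lt_min (by positivity) (by positivity), ?_⟩
  intro V _ _ G c w j H hj1 hjk hw hs hc hg
  have ht := H j hj1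
  by_cases hco : coch G w ≤ ρ ^ 2 / 6
  · have h3 := few G c H k hρ0 (mul_nonneg hC1.le ht)
      (fun y q hy hs => h1 V c y q j H hj1 hjk hy hs) hw hs (by linarith) (by linarith)
    have h4 : 3 * (C1 * tur c j) / ρ ^ 2 * coch G w ≤ C1 * tur c j / 2 := by
      refine le_trans (mul_le_mul_of_nonneg_left hco (by positivity)) (le_of_eq ?_)
      field_simp; ring
    have h5 := mul_le_mul_of_nonneg_right
      (min_le_left (C1 / 2) (C2 * (β ^ 2 / 4) * (β ^ 2 / 2))) ht
    linarith
  · push Not at hco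
    set r : V → ℝ := fun x => w x / 2 with hr
    have hr0 : ∀ x, 0 ≤ r x := fun x => by have := hw x; positivity
    have hrs : ∑ x, r x = 1 / 2 := by rw [← sum_div, hs]
    have h3 := many G c H k (by positivity : 0 < β ^ 2 / 4) (mul_nonneg hC2.le ht)
      (fun y q hy hs => h2 V c y q j H hj1 hjk hy hs) hr0 hrs
    have e : r + r = w := by funext x; simp [hr]
    rw [e] at h3
    have h4 := coch_mul_cl G hk hr0 (by linarith)
    have e1 : coch G r = coch G w / 2 ^ 3 := form_half (fun T hT => by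
      by_cases h : ∃ a b u, T = {a, b, u} ∧ G.Adj a b ∧ ¬ G.Adj u a ∧ ¬ G.Adj u b
      · obtain ⟨a, b, u, rfl, hab, ha, hb⟩ := h
        exact card_eq_three.2 ⟨a, b, u, hab.ne, fun h => hb (h ▸ hab),
          fun h => ha (h ▸ hab.symm), rfl⟩
      · exact absurd (if_neg h) hT) w
    have e2 : cl G k r = cl G k w / 2 ^ k := form_half (fun T hT => by
      by_cases h : G.IsClique (T : Set V) ∧ T.card = k
      · exact h.2
      · exact absurd (if_neg h) hT) w
    have h5 : β ≤ ∑ u, r u * tau G k u r := by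
      rw [hβ, div_le_iff₀ (by positivity), mul_comm (∑ u, r u * tau G k u r)]
      refine le_trans ?_ h4
      rw [e1, e2]
      exact mul_le_mul (div_le_div_of_nonneg_right hco.le (by positivity))
        (div_le_div_of_nonneg_right hc (by positivity)) (by positivity)
        (div_nonneg (coch_nonneg G hw) (by positivity))
    have h6 : β ^ 2 / 2 ≤ (∑ u, r u * tau G k u r) ^ 2 - 2 * (β ^ 2 / 4) := by nlinarith
    have h7 := mul_le_mul_of_nonneg_left h6
      (mul_nonneg (mul_nonneg hC2.le ht) (by positivity : 0 ≤ β ^ 2 / 4))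
    have h8 := mul_le_mul_of_nonneg_right
      (min_le_right (C1 / 2) (C2 * (β ^ 2 / 4) * (β ^ 2 / 2))) ht
    nlinarith

end Pool.Agent.TurSp
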