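import Mathlib

/-! Multi-affine forms in vertex weights, two-vertex moves, elementary symmetric sums. -/

set_option linter.unusedSectionVars false

namespace Pool.Agent.TurSp
open Finset

variable {V : Type} [Fintype V] [DecidableEq V]

/-- multi-affine form with coefficient function `κ` -/
noncomputable def form (κ : Finset V → ℝ) (w : V → ℝ) : ℝ :=
  ∑ T : Finset V, κ T * ∏ x ∈ T, w x

/-- put the weights `s`, `t` on the vertices `u`, `v` -/
def set2 (w : V → ℝ) (u v : V) (s t : ℝ) : V → ℝ :=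
  Function.update (Function.update w u s) v t

/-- the part of a form that avoids `u` and `v` -/
noncomputable def off (κ : Finset V → ℝ) (w : V → ℝ) (u v : V) : ℝ :=
  ∑ T ∈ ((univ.erase u).erase v).powerset, κ T * ∏ x ∈ T, w x

omit [Fintype V] in
lemma set2_u (w : V → ℝ) {u v : V} (h : u ≠ v) (s t : ℝ) : set2 w u v s t u = s := by
  simp [set2, Function.update_of_ne h]

omit [Fintype V] in
lemma set2_v (w : V → ℝ) (u v : V) (s t : ℝ) : set2 w u v s t v = t := by
  simp [set2]

omit [Fintype V] in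
lemma set2_ne (w : V → ℝ) {u v x : V} (hu : x ≠ u) (hv : x ≠ v) (s t : ℝ) :
    set2 w u v s t x = w x := by
  simp [set2, Function.update_of_ne hu, Function.update_of_ne hv]

omit [Fintype V] in
lemma set2_self (w : V → ℝ) (u v : V) : set2 w u v (w u) (w v) = w := by
  simp [set2]

omit [Fintype V] in
lemma set2_nonneg {w : V → ℝ} (hw : ∀ x, 0 ≤ w x) {u v : V} (h : u ≠ v) {s t : ℝ}
    (hs : 0 ≤ s) (ht : 0 ≤ t) (x : V) : 0 ≤ set2 w u v s t x := by
  by_cases h1 : x = v
  · rw [h1, set2_v]; exact ht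
  by_cases h2 : x = u
  · rw [h2, set2_u w h]; exact hs
  rw [set2_ne w h2 h1]; exact hw x

lemma univ_eq_insert (u v : V) :
    (univ : Finset V) = insert u (insert v ((univ.erase u).erase v)) := by
  ext x
  by_cases h1 : x = u <;> by_cases h2 : x = v <;> simp [h1, h2]

lemma sum_split (f : V → ℝ) {u v : V} (h : u ≠ v) :
    ∑ x, f x = f u + f v + ∑ x ∈ (univ.erase u).erase v, f x := by
  conv_lhs => rw [univ_eq_insert u v]
  rw [sum_insert (by simp [h]), sum_insert (by simp)]
  ring

lemma sum_set2 (w : V → ℝ) {u v : V} (h : u ≠ v) (s t : ℝ) :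
    ∑ x, set2 w u v s t x = ∑ x, w x + (s + t - (w u + w v)) := by
  rw [sum_split _ h, sum_split w h, set2_u w h, set2_v]
  have : ∑ x ∈ (univ.erase u).erase v, set2 w u v s t x = ∑ x ∈ (univ.erase u).erase v, w x := by
    refine sum_congr rfl fun x hx => ?_
    simp only [mem_erase] at hx
    exact set2_ne w hx.2.1 hx.1 s t
  rw [this]; ring

/-- the basic decomposition of a form along two coordinates -/
lemma form_set2 (κ : Finset V → ℝ) (w : V → ℝ) {u v : V} (h : u ≠ v) (s t : ℝ) :
    form κ (set2 w u v s t) = off κ w u v + s * off (fun T => κ (insert u T)) w u v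
      + t * off (fun T => κ (insert v T)) w u v
      + s * t * off (fun T => κ (insert u (insert v T))) w u v := by
  set R := (univ.erase u).erase v with hR
  have hu : u ∉ insert v R := by simp [hR, h]
  have hv : v ∉ R := by simp [hR]
  have hp : ∀ T ∈ R.powerset, ∏ x ∈ T, set2 w u v s t x = ∏ x ∈ T, w x := by
    intro T hT
    refine prod_congr rfl fun x hx => ?_
    have := mem_powerset.1 hT hx
    simp only [hR, mem_erase] at this
    exact set2_ne w this.2.1 this.1 s t
  have huT : ∀ T ∈ R.powerset, u ∉ T := fun T hT hx => hu (mem_insert_of_mem (mem_powerset.1 hT hx))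
  have hvT : ∀ T ∈ R.powerset, v ∉ T := fun T hT hx => hv (mem_powerset.1 hT hx)
  have hU : (univ : Finset (Finset V)) = (insert u (insert v R)).powerset := by
    rw [hR, ← univ_eq_insert u v, powerset_univ]
  unfold form off
  rw [← hR, hU, sum_powerset_insert hu, sum_powerset_insert hv, sum_powerset_insert hv,
    mul_sum, mul_sum, mul_sum]
  have e1 : ∑ T ∈ R.powerset, κ T * ∏ x ∈ T, set2 w u v s t x
      = ∑ T ∈ R.powerset, κ T * ∏ x ∈ T, w x := sum_congr rfl fun T hT => by rw [hp T hT]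
  have e2 : ∑ T ∈ R.powerset, κ (insert v T) * ∏ x ∈ insert v T, set2 w u v s t x
      = ∑ T ∈ R.powerset, t * (κ (insert v T) * ∏ x ∈ T, w x) := sum_congr rfl fun T hT => by
    rw [prod_insert (hvT T hT), hp T hT, set2_v]; ring
  have e3 : ∑ T ∈ R.powerset, κ (insert u T) * ∏ x ∈ insert u T, set2 w u v s t x
      = ∑ T ∈ R.powerset, s * (κ (insert u T) * ∏ x ∈ T, w x) := sum_congr rfl fun T hT => by
    rw [prod_insert (huT T hT), hp T hT, set2_u w h]; ring
  have e4 : ∑ T ∈ R.powerset,
        κ (insert u (insert v T)) * ∏ x ∈ insert u (insert v T), set2 w u v s t x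
      = ∑ T ∈ R.powerset, s * t * (κ (insert u (insert v T)) * ∏ x ∈ T, w x) :=
    sum_congr rfl fun T hT => by
      rw [prod_insert (by simp [h, huT T hT]), prod_insert (hvT T hT), hp T hT, set2_u w h, set2_v]
      ring
  rw [e1, e2, e3, e4]; ring

lemma form_nonneg {κ : Finset V → ℝ} {w : V → ℝ} (hκ : ∀ T, 0 ≤ κ T) (hw : ∀ x, 0 ≤ w x) :
    0 ≤ form κ w :=
  sum_nonneg fun T _ => mul_nonneg (hκ T) (prod_nonneg fun x _ => hw x)

lemma form_mono {κ : Finset V → ℝ} {w w' : V → ℝ} (hκ : ∀ T, 0 ≤ κ T) (hw : ∀ x, 0 ≤ w x)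
    (h : ∀ x, w x ≤ w' x) : form κ w ≤ form κ w' :=
  sum_le_sum fun T _ => mul_le_mul_of_nonneg_left
    (prod_le_prod (fun x _ => hw x) fun x _ => h x) (hκ T)

/-- elementary symmetric sum over `U` -/
noncomputable def esym (r : ℕ) (U : Finset V) (y : V → ℝ) : ℝ :=
  ∑ T ∈ powersetCard r U, ∏ x ∈ T, y x

omit [Fintype V] [DecidableEq V] in
lemma esym_zero (U : Finset V) (y : V → ℝ) : esym 0 U y = 1 := by simp [esym]

omit [Fintype V] [DecidableEq V] in
lemma esym_empty (r : ℕ) (y : V → ℝ) : esym (r + 1) ∅ y = 0 := by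
  simp [esym, powersetCard_eq_empty.2]

omit [Fintype V] in
lemma esym_insert (r : ℕ) {U : Finset V} {b : V} (hb : b ∉ U) (y : V → ℝ) :
    esym (r + 1) (insert b U) y = y b * esym r U y + esym (r + 1) U y := by
  unfold esym
  rw [powersetCard_succ_insert hb, sum_union, sum_image, mul_sum, add_comm]
  · congr 1
    refine sum_congr rfl fun T hT => ?_
    rw [prod_insert fun hx => hb ((mem_powersetCard.1 hT).1 hx)]
  · intro T hT T' hT' hTT
    have h1 : b ∉ T := fun hx => hb ((mem_powersetCard.1 hT).1 hx)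
    have h2 : b ∉ T' := fun hx => hb ((mem_powersetCard.1 hT').1 hx)
    have : (insert b T).erase b = (insert b T').erase b := congrArg (fun S => S.erase b) hTT
    rwa [erase_insert h1, erase_insert h2] at this
  · rw [disjoint_left]
    intro T hT hT'
    obtain ⟨T', -, rfl⟩ := mem_image.1 hT'
    exact hb ((mem_powersetCard.1 hT).1 (mem_insert_self _ _))

omit [Fintype V] [DecidableEq V] in
lemma esym_nonneg (r : ℕ) (U : Finset V) {y : V → ℝ} (hy : ∀ x, 0 ≤ y x) : 0 ≤ esym r U y :=
  sum_nonneg fun _ _ => prod_nonneg fun x _ => hy x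

omit [Fintype V] [DecidableEq V] in
lemma esym_congr (r : ℕ) (U : Finset V) {y y' : V → ℝ} (h : ∀ x ∈ U, y x = y' x) :
    esym r U y = esym r U y' :=
  sum_congr rfl fun _ hT => prod_congr rfl fun x hx => h x ((mem_powersetCard.1 hT).1 hx)

omit [Fintype V] in
lemma esym_succ_le (U : Finset V) {y : V → ℝ} (hy : ∀ x, 0 ≤ y x) :
    ∀ r, esym (r + 1) U y ≤ (∑ x ∈ U, y x) * esym r U y := by
  induction U using Finset.induction_on with
  | empty => intro r; simp [esym_empty]
  | insert b U hb ih =>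
    intro r
    rw [esym_insert r hb, sum_insert hb]
    have hS : 0 ≤ ∑ x ∈ U, y x := sum_nonneg fun x _ => hy x
    cases r with
    | zero =>
      have := ih 0
      rw [esym_zero] at this
      rw [esym_zero, esym_zero]; linarith
    | succ r =>
      rw [esym_insert r hb]
      have h1 := ih (r + 1)
      have h2 : 0 ≤ (y b + ∑ x ∈ U, y x) * (y b * esym r U y) :=
        mul_nonneg (add_nonneg (hy b) hS) (mul_nonneg (hy b) (esym_nonneg r U hy))
      nlinarith

omit [Fintype V] in
lemma esym_anti (U : Finset V) {y : V → ℝ} (hy : ∀ x, 0 ≤ y x) (h1 : ∑ x ∈ U, y x ≤ 1)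
    {r s : ℕ} (h : r ≤ s) : esym s U y ≤ esym r U y := by
  induction s, h using Nat.le_induction with
  | base => exact le_rfl
  | succ s _ ih =>
    have h2 := esym_succ_le U hy s
    have h3 := esym_nonneg s U hy
    nlinarith

omit [Fintype V] in
lemma esym_le_one (U : Finset V) {y : V → ℝ} (hy : ∀ x, 0 ≤ y x) (h1 : ∑ x ∈ U, y x ≤ 1)
    (r : ℕ) : esym r U y ≤ 1 := by
  have := esym_anti U hy h1 (Nat.zero_le r)
  rwa [esym_zero] at this

/-- the sets of a given size through one vertex weigh at most the weight of the vertex -/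
lemma sum_through_le {y : V → ℝ} (hy : ∀ x, 0 ≤ y x) (h1 : ∑ x, y x ≤ 1) (r : ℕ) (z : V) :
    ∑ T ∈ (powersetCard r univ).filter (fun T => z ∈ T), ∏ x ∈ T, y x ≤ y z := by
  cases r with
  | zero =>
    have : (powersetCard 0 (univ : Finset V)).filter (fun T => z ∈ T) = ∅ := by
      ext T; simp only [powersetCard_zero, mem_filter, mem_singleton, notMem_empty, iff_false]
      rintro ⟨rfl, h⟩; simp at h
    rw [this, sum_empty]; exact hy z
  | succ r =>
    have e1 := sum_filter_add_sum_filter_not (powersetCard (r + 1) (univ : Finset V))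
      (fun T => z ∈ T) (fun T => ∏ x ∈ T, y x)
    have e2 : (powersetCard (r + 1) (univ : Finset V)).filter (fun T => ¬ z ∈ T)
        = powersetCard (r + 1) (univ.erase z) := by
      ext T
      simp only [mem_filter, mem_powersetCard, subset_univ, true_and, subset_erase]
      tauto
    have e3 := esym_insert r (notMem_erase z (univ : Finset V)) y
    rw [insert_erase (mem_univ z)] at e3
    have e4 : esym r (univ.erase z) y ≤ 1 :=
      esym_le_one _ hy (le_trans (sum_le_sum_of_subset_of_nonneg (erase_subset _ _)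
        fun x _ _ => hy x) h1) r
    rw [e2] at e1
    unfold esym at e3 e4
    have := mul_le_mul_of_nonneg_left e4 (hy z)
    linarith

/-- sets of size `r` that meet `Z` weigh at most the weight of `Z` -/
lemma sum_meet_le {y : V → ℝ} (hy : ∀ x, 0 ≤ y x) (h1 : ∑ x, y x ≤ 1) (r : ℕ) (Z : Finset V)
    (A : Finset (Finset V)) (hA : ∀ T ∈ A, T.card = r ∧ ∃ z ∈ Z, z ∈ T) :
    ∑ T ∈ A, ∏ x ∈ T, y x ≤ ∑ z ∈ Z, y z := by
  have hn : ∀ T : Finset V, 0 ≤ ∏ x ∈ T, y x := fun T => prod_nonneg fun x _ => hy x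
  calc ∑ T ∈ A, ∏ x ∈ T, y x
      ≤ ∑ T ∈ A, ∑ z ∈ Z, if z ∈ T then ∏ x ∈ T, y x else 0 := by
        refine sum_le_sum fun T hT => ?_
        obtain ⟨-, z, hz, hzT⟩ := hA T hT
        have := single_le_sum (f := fun z => if z ∈ T then ∏ x ∈ T, y x else 0)
          (fun i _ => by split_ifs; exacts [hn T, le_rfl]) hz
        simpa [hzT] using this
    _ = ∑ z ∈ Z, ∑ T ∈ A.filter (fun T => z ∈ T), ∏ x ∈ T, y x := by
        rw [sum_comm]; refine sum_congr rfl fun z _ => ?_; rw [sum_filter]
    _ ≤ ∑ z ∈ Z, y z := by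
        refine sum_le_sum fun z _ => le_trans ?_ (sum_through_le hy h1 r z)
        refine sum_le_sum_of_subset_of_nonneg ?_ fun T _ _ => hn T
        intro T hT
        rw [mem_filter] at hT ⊢
        exact ⟨mem_powersetCard.2 ⟨subset_univ _, (hA T hT.1).1⟩, hT.2⟩

omit [Fintype V] in
lemma esym_two (U : Finset V) (y : V → ℝ) :
    esym 1 U y = ∑ x ∈ U, y x ∧
    2 * esym 2 U y = (∑ x ∈ U, y x) ^ 2 - ∑ x ∈ U, y x ^ 2 ∧
    6 * esym 3 U y = (∑ x ∈ U, y x) ^ 3 - 3 * (∑ x ∈ U, y x) * (∑ x ∈ U, y x ^ 2)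
      + 2 * ∑ x ∈ U, y x ^ 3 := by
  induction U using Finset.induction_on with
  | empty => simp [esym_empty]
  | insert b U hb ih =>
    obtain ⟨h1, h2, h3⟩ := ih
    rw [esym_insert 0 hb, esym_insert 1 hb, esym_insert 2 hb, sum_insert hb, sum_insert hb,
      sum_insert hb, esym_zero]
    refine ⟨by rw [h1]; ring, ?_, ?_⟩
    · simp only [Nat.reduceAdd] at *
      rw [h1]; linear_combination h2
    · simp only [Nat.reduceAdd] at *
      linear_combination 3 * y b * h2 + h3

end Pool.Agent.TurSp
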