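import Pool.Agent.TurSp.Top

/-! A complete multipartite weighting with a weight gap dominates every small balanced one. -/

set_option linter.unusedSectionVars false

namespace Pool.Agent.TurSp
open Finset

variable {V : Type} [Fintype V] [DecidableEq V]

/-- stage one: half of every light part goes to the heavy part -/
lemma stage_one (c : ℕ → ℝ) (H : ∀ j, 1 ≤ j → 0 ≤ tur c j) {y : V → ℝ} (hy : ∀ x, 0 ≤ y x)
    (hs : ∑ x, y x = 1) (q : V) {γ : ℝ} (hγ : 0 < γ) (L : Finset V) :
    q ∉ L → (∀ b ∈ L, y b + γ ≤ y q) →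
    ∃ y' : V → ℝ, (∀ x, 0 ≤ y' x) ∧ ∑ x, y' x = 1 ∧ y' q = y q + (∑ b ∈ L, y b) / 2 ∧
      (∀ x, x ≠ q → y x / 2 ≤ y' x ∧ y' x ≤ y x) ∧ (∀ x, x ≠ q → x ∉ L → y' x = y x) ∧
      Real.exp (-(2 * (∑ b ∈ L, y b) / γ)) * lam c y' ≤ lam c y := by
  induction L using Finset.induction_on with
  | empty =>
    intro _ _
    exact ⟨y, hy, hs, by simp, fun x _ => ⟨by linarith [hy x], le_rfl⟩, fun _ _ _ => rfl, by simp⟩
  | insert b L hb ih =>
    intro hq hL
    have hqb : q ≠ b := fun h => hq (by rw [h]; exact mem_insert_self _ _)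
    obtain ⟨y1, h0, h1, h2, h3, h4, h5⟩ := ih (fun h => hq (mem_insert_of_mem h))
      fun x hx => hL x (mem_insert_of_mem hx)
    have hb1 : y1 b = y b := h4 b hqb.symm hb
    have hS : 0 ≤ ∑ x ∈ L, y x := sum_nonneg fun x _ => hy x
    have hg : y1 b + γ ≤ y1 q := by rw [hb1, h2]; linarith [hL b (mem_insert_self _ _)]
    have hab := lam_absorb c H h0 h1 hqb hγ hg (δ := y b / 2) (by linarith [hy b])
      (by rw [hb1]; linarith [hy b])
    refine ⟨set2 y1 q b (y1 q + y b / 2) (y1 b - y b / 2),
      set2_nonneg h0 hqb (by linarith [h0 q, hy b]) (by rw [hb1]; linarith [hy b]),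
      by rw [sum_set2 y1 hqb, h1]; ring, by rw [set2_u y1 hqb, h2, sum_insert hb]; ring,
      fun x hx => ?_, fun x hx hxL => ?_, ?_⟩
    · by_cases hxb : x = b
      · rw [hxb, set2_v, hb1]; constructor <;> linarith [hy b]
      · rw [set2_ne y1 hx hxb]; exact h3 x hx
    · have hxb : x ≠ b := fun h => hxL (by rw [h]; exact mem_insert_self _ _)
      rw [set2_ne y1 hx hxb]; exact h4 x hx fun h => hxL (mem_insert_of_mem h)
    · rw [sum_insert hb]
      have e : Real.exp (-(2 * (y b + ∑ x ∈ L, y x) / γ))
          = Real.exp (-(2 * (∑ x ∈ L, y x) / γ)) * Real.exp (-(4 * (y b / 2) / γ)) := by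
        rw [← Real.exp_add]; congr 1; ring
      rw [e, mul_assoc]
      exact le_trans (mul_le_mul_of_nonneg_left hab (Real.exp_pos _).le) h5

lemma exp_le_one_sub {p : ℝ} (h0 : 0 ≤ p) (h1 : p ≤ 2 / 3) : Real.exp (-(3 * p)) ≤ 1 - p := by
  rw [Real.exp_neg, inv_le_iff_one_le_mul₀ (Real.exp_pos _)]
  have := Real.add_one_le_exp (3 * p)
  nlinarith

/-- stage two: all other parts are absorbed or become seeds -/
lemma stage_two (c : ℕ → ℝ) (H : ∀ j, 1 ≤ j → 0 ≤ tur c j) (q : V) {γ B K : ℝ} (hγ : 0 < γ)
    (hB : 0 < B) (hBγ : 4 * B ≤ γ) (hK : K = 4 / γ + 4 / B) (j : ℕ) (U : Finset V) :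
    ∀ (r : ℕ) (P : Finset V) (y : V → ℝ), q ∉ U → q ∉ P → Disjoint U P → (∀ x, 0 ≤ y x) →
      ∑ x, y x = 1 → (∀ x, x ≠ q → x ∉ U → x ∉ P → y x = 0) → P.card + r + 1 = j →
      (∀ p ∈ P, B / 2 ≤ y p) → (∀ b ∈ U, y b + γ + r * B ≤ y q) → γ + r * B ≤ y q →
      (B / 2) ^ j * Real.exp (-(K * ∑ b ∈ U, y b)) * esym r U y * tur c j ≤ lam c y := by
  have hK0 : 0 ≤ K := by rw [hK]; positivity
  induction U using Finset.induction_on with
  | empty =>
    intro r P y _ hqP _ hy hs h0 hj hP _ hq
    cases r with
    | succ r => rw [esym_empty]; simpa using lam_nonneg c H hy hs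
    | zero =>
      have hc : (insert q P).card = j := by rw [card_insert_of_notMem hqP]; omega
      have h1 := lam_top c H j (insert q P) hc _ y hy hs
        (fun x hx => h0 x (fun h => hx (by rw [h]; exact mem_insert_self _ _)) (notMem_empty _)
          fun h => hx (mem_insert_of_mem h)) le_rfl
      refine le_trans ?_ h1
      have hj1 : 1 ≤ j := by omega
      refine mul_le_mul_of_nonneg_right ?_ (H j hj1)
      have h2 : (B / 2) ^ j ≤ ∏ x ∈ insert q P, y x := by
        rw [← hc, ← prod_const]
        refine prod_le_prod (fun _ _ => by positivity) fun x hx => ?_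
        rcases mem_insert.1 hx with h | h
        · rw [h]; simp only [Nat.cast_zero, zero_mul, add_zero] at hq; linarith
        · exact hP x h
      have h3 : (1 : ℝ) ≤ (j : ℝ) ^ j := one_le_pow₀ (by exact_mod_cast hj1)
      have h4 : 0 ≤ ∏ x ∈ insert q P, y x := prod_nonneg fun x _ => hy x
      simp only [sum_empty, mul_zero, neg_zero, Real.exp_zero, mul_one, esym_zero]
      nlinarith
  | insert b U hb ih =>
    intro r P y hqU hqP hd hy hs h0 hj hP hU hq
    have hqb : q ≠ b := fun h => hqU (by rw [h]; exact mem_insert_self _ _)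
    have hqU' : q ∉ U := fun h => hqU (mem_insert_of_mem h)
    have hbP : b ∉ P := disjoint_left.1 hd (mem_insert_self _ _)
    have hd' : Disjoint U P := disjoint_of_subset_left (subset_insert _ _) hd
    have hj1 : 1 ≤ j := by omega
    have ht := H j hj1
    have hrB : 0 ≤ (r : ℝ) * B := by positivity
    have hyb1 : y b ≤ 1 := by
      rw [← hs]; exact single_le_sum (fun x _ => hy x) (mem_univ b)
    have hyq1 : y q ≤ 1 := by
      rw [← hs]; exact single_le_sum (fun x _ => hy x) (mem_univ q)
    have hbq := hU b (mem_insert_self _ _)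
    have hneU : ∀ x ∈ U, x ≠ q ∧ x ≠ b :=
      fun x hx => ⟨fun h => hqU' (h ▸ hx), fun h => hb (h ▸ hx)⟩
    have hneP : ∀ x ∈ P, x ≠ q ∧ x ≠ b :=
      fun x hx => ⟨fun h => hqP (h ▸ hx), fun h => hbP (h ▸ hx)⟩
    set E := Real.exp (-(K * ∑ x ∈ U, y x)) with hE
    have hE0 : 0 < E := Real.exp_pos _
    have hsplit : Real.exp (-(K * ∑ x ∈ insert b U, y x)) = Real.exp (-(K * y b)) * E := by
      rw [sum_insert hb, hE, ← Real.exp_add]; congr 1; ring
    have hC : 0 ≤ (B / 2) ^ j * E * tur c j := by positivity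
    -- the merged weighting
    have hmer : (B / 2) ^ j * E * esym r U y * tur c j ≤ lam c (set2 y q b (y q + y b) 0) := by
      have := ih r P (set2 y q b (y q + y b) 0) hqU' hqP hd'
        (set2_nonneg hy hqb (by linarith [hy q, hy b]) le_rfl)
        (by rw [sum_set2 y hqb, hs]; ring)
        (fun x hx hxU hxP => by
          by_cases hxb : x = b
          · rw [hxb, set2_v]
          · rw [set2_ne y hx hxb]
            exact h0 x hx (fun h => (mem_insert.1 h).elim hxb hxU) hxP) hj
        (fun p hp => by rw [set2_ne y (hneP p hp).1 (hneP p hp).2]; exact hP p hp)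
        (fun x hx => by
          rw [set2_ne y (hneU x hx).1 (hneU x hx).2, set2_u y hqb]
          linarith [hU x (mem_insert_of_mem hx), hy b])
        (by rw [set2_u y hqb]; linarith [hy b])
      rwa [sum_congr rfl fun x hx => set2_ne y (hneU x hx).1 (hneU x hx).2 _ _,
        esym_congr r U fun x hx => set2_ne y (hneU x hx).1 (hneU x hx).2 _ _] at this
    have habs : Real.exp (-(4 * y b / γ)) * ((B / 2) ^ j * E * esym r U y * tur c j)
        ≤ lam c y := by
      have := lam_absorb c H hy hs hqb hγ (by linarith) (hy b) le_rfl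
      rw [sub_self] at this
      exact le_trans (mul_le_mul_of_nonneg_left hmer (Real.exp_pos _).le) this
    have hKb : K * y b = 4 * y b / γ + 4 * y b / B := by rw [hK]; ring
    have hb1 : 0 ≤ 4 * y b / γ := by have := hy b; positivity
    have hb2 : 0 ≤ 4 * y b / B := by have := hy b; positivity
    rw [hsplit]
    cases r with
    | zero =>
      rw [esym_zero] at habs ⊢
      have : Real.exp (-(K * y b)) ≤ Real.exp (-(4 * y b / γ)) :=
        Real.exp_le_exp.2 (by rw [hKb]; linarith)
      have := mul_le_mul_of_nonneg_right this hC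
      nlinarith
    | succ r =>
      rw [esym_insert r hb]
      have he0 := esym_nonneg r U hy
      have he1 := esym_nonneg (r + 1) U hy
      push_cast at hU hq hbq hrB
      -- a weighting in which `b` is a seed
      have hseed : ∀ s t : ℝ, s + t = y q + y b → B / 2 ≤ t → y q - B ≤ s →
          (B / 2) ^ j * E * esym r U y * tur c j ≤ lam c (set2 y q b s t) := by
        intro s t hst htB hsB
        have hr0 : 0 ≤ (r : ℝ) * B := by positivity
        have := ih r (insert b P) (set2 y q b s t) hqU'
          (fun h => (mem_insert.1 h).elim hqb hqP)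
          (disjoint_insert_right.2 ⟨hb, hd'⟩)
          (set2_nonneg hy hqb (by nlinarith) (by linarith))
          (by rw [sum_set2 y hqb, hs, hst]; ring)
          (fun x hx hxU hxP => by
            have hxb : x ≠ b := fun h => hxP (by rw [h]; exact mem_insert_self _ _)
            rw [set2_ne y hx hxb]
            exact h0 x hx (fun h => (mem_insert.1 h).elim hxb hxU)
              fun h => hxP (mem_insert_of_mem h))
          (by rw [card_insert_of_notMem hbP]; omega)
          (fun p hp => by
            rcases mem_insert.1 hp with h | h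
            · rw [h, set2_v]; exact htB
            · rw [set2_ne y (hneP p h).1 (hneP p h).2]; exact hP p h)
          (fun x hx => by
            rw [set2_ne y (hneU x hx).1 (hneU x hx).2, set2_u y hqb]
            nlinarith [hU x (mem_insert_of_mem hx)])
          (by rw [set2_u y hqb]; nlinarith)
        rwa [sum_congr rfl fun x hx => set2_ne y (hneU x hx).1 (hneU x hx).2 _ _,
          esym_congr r U fun x hx => set2_ne y (hneU x hx).1 (hneU x hx).2 _ _] at this
      set C := (B / 2) ^ j * E * tur c j with hCdef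
      have hgoal : (B / 2) ^ j * (Real.exp (-(K * y b)) * E)
            * (y b * esym r U y + esym (r + 1) U y) * tur c j
          = Real.exp (-(K * y b)) * y b * (C * esym r U y)
            + Real.exp (-(K * y b)) * (C * esym (r + 1) U y) := by rw [hCdef]; ring
      have hre : ∀ z : ℝ, (B / 2) ^ j * E * z * tur c j = C * z := fun z => by rw [hCdef]; ring
      rw [hgoal]
      rw [hre] at hmer habs
      have hx0 : 0 ≤ C * esym r U y := mul_nonneg hC he0
      have hx1 : 0 ≤ C * esym (r + 1) U y := mul_nonneg hC he1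
      have hek : Real.exp (-(K * y b)) ≤ 1 :=
        Real.exp_le_one_iff.2 (by have := mul_nonneg hK0 (hy b); linarith)
      have hek0 : 0 < Real.exp (-(K * y b)) := Real.exp_pos _
      by_cases hbB : B / 2 ≤ y b
      · have h1 := hseed (y q) (y b) rfl hbB (by linarith)
        rw [set2_self, hre] at h1
        have h2 : Real.exp (-(K * y b)) ≤ Real.exp (-(4 * y b / γ)) / 2 := by
          rw [hKb, neg_add, Real.exp_add]
          have h3 : Real.exp (-(4 * y b / B)) ≤ 1 / 2 := by
            rw [Real.exp_neg, one_div]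
            refine inv_anti₀ (by norm_num) ?_
            have h4 : 2 ≤ 4 * y b / B := by rw [le_div_iff₀ hB]; linarith
            linarith [Real.add_one_le_exp (4 * y b / B)]
          have := mul_le_mul_of_nonneg_left h3 (Real.exp_pos (-(4 * y b / γ))).le
          linarith
        have h5 : Real.exp (-(4 * y b / γ)) ≤ 1 := Real.exp_le_one_iff.2 (by linarith)
        have h6 : Real.exp (-(K * y b)) * y b ≤ 1 / 2 := by nlinarith [hy b]
        have h7 := mul_le_mul_of_nonneg_right h6 hx0
        have h8 := mul_le_mul_of_nonneg_right h2 hx1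
        linarith
      · push Not at hbB
        have hr0 : 0 ≤ (r : ℝ) * B := by positivity
        have ha : 4 * B ≤ y q := by nlinarith
        have hden : 0 < (y q + y b - B) * B := by have := hy b; exact mul_pos (by linarith) hB
        set p := y q * y b / ((y q + y b - B) * B) with hp
        have hpm : p * ((y q + y b - B) * B) = y q * y b := div_mul_cancel₀ _ hden.ne'
        have hp1 : y b ≤ p := by
          rw [hp, le_div_iff₀ hden]
          have : (y q + y b - B) * B ≤ y q := by nlinarith [hy b]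
          nlinarith [hy b]
        have hp2 : 3 * p ≤ 4 * y b / B := by
          rw [hp, ← mul_div_assoc, div_le_div_iff₀ hden hB]
          have : 3 * y q ≤ 4 * (y q + y b - B) := by linarith [hy b]
          have h9 := mul_le_mul_of_nonneg_right this (mul_nonneg (hy b) hB.le)
          nlinarith
        have hp3 : p ≤ 2 / 3 := by
          have : 4 * y b / B ≤ 2 := by rw [div_le_iff₀ hB]; linarith
          linarith
        have hp0 : 0 ≤ p := le_trans (hy b) hp1
        have hmix := lam_mix c y hqb (s₁ := y q + y b - B) (t₁ := B) (s₂ := y q + y b) (t₂ := 0)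
          (θ := p) (by ring) (by ring) (by rw [hpm]; ring)
        have h1 := hseed (y q + y b - B) B (by ring) (by linarith) (by linarith [hy b])
        rw [hre] at h1
        have h2 : Real.exp (-(K * y b)) ≤ 1 - p :=
          le_trans (Real.exp_le_exp.2 (by rw [hKb]; linarith)) (exp_le_one_sub hp0 hp3)
        have h3 : Real.exp (-(K * y b)) * y b ≤ p := by nlinarith [hy b]
        have h4 := mul_le_mul_of_nonneg_right h3 hx0
        have h5 := mul_le_mul_of_nonneg_right h2 hx1
        have h6 := mul_le_mul_of_nonneg_left h1 hp0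
        have h7 := mul_le_mul_of_nonneg_left hmer (by linarith : 0 ≤ 1 - p)
        rw [hmix]; linarith

/-- the lower bound for complete multipartite weightings with a gap -/
theorem gap_bound (k : ℕ) {η : ℝ} (hη : 0 < η) : ∃ C : ℝ, 0 < C ∧
    ∀ (V : Type) [Fintype V] [DecidableEq V] (c : ℕ → ℝ) (y : V → ℝ) (q : V) (j : ℕ),
      (∀ i, 1 ≤ i → 0 ≤ tur c i) → 1 ≤ j → j ≤ k → (∀ x, 0 ≤ y x) → ∑ x, y x = 1 →
      η ≤ esym k univ y → η ≤ ∑ b ∈ univ.filter (fun b => y b + η ≤ y q), y b →
      C * tur c j ≤ lam c y := by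
  set B : ℝ := η / (16 * (k + 1)) with hB
  set K : ℝ := 4 / (η / 4) + 4 / B with hK
  have hB0 : 0 < B := by positivity
  have hK0 : 0 ≤ K := by positivity
  refine ⟨Real.exp (-(2 / η)) * ((B / 2) ^ k * Real.exp (-K) * (η / 2 ^ k / 2)), by positivity, ?_⟩
  intro V _ _ c y q0 j H hj1 hjk hy hs he hg
  obtain ⟨q, -, hq⟩ := exists_max_image univ y ⟨q0, mem_univ _⟩
  set L := univ.filter (fun b => y b + η ≤ y q) with hL
  have hLη : η ≤ ∑ b ∈ L, y b := by
    refine le_trans hg (sum_le_sum_of_subset_of_nonneg (fun b hb => ?_) fun x _ _ => hy x)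
    rw [mem_filter] at hb ⊢
    exact ⟨hb.1, le_trans hb.2 (hq q0 (mem_univ _))⟩
  have hL1 : ∑ b ∈ L, y b ≤ 1 := by
    rw [← hs]; exact sum_le_sum_of_subset_of_nonneg (subset_univ _) fun x _ _ => hy x
  have hη1 : η ≤ 1 := le_trans hLη hL1
  obtain ⟨y1, h0, h1, h2, h3, -, h5⟩ := stage_one c H hy hs q hη L
    (fun h => by have := (mem_filter.1 h).2; linarith) fun b hb => (mem_filter.1 hb).2
  have hkB : ((k : ℝ) + 1) * B = η / 16 := by rw [hB]; field_simp
  have hk0 : (0 : ℝ) ≤ k := Nat.cast_nonneg k
  have hBη : 4 * B ≤ η / 4 := by nlinarith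
  have hr : ((j - 1 : ℕ) : ℝ) * B ≤ η / 4 := by
    have : ((j - 1 : ℕ) : ℝ) ≤ k + 1 := by
      have : j - 1 ≤ k + 1 := by omega
      exact_mod_cast this
    nlinarith
  have h6 := stage_two c H q (by positivity : 0 < η / 4) hB0 hBη hK j (univ.erase q) (j - 1) ∅ y1
    (notMem_erase _ _) (notMem_empty _) (disjoint_empty_right _) h0 h1
    (fun x hx hxU _ => absurd (mem_erase.2 ⟨hx, mem_univ _⟩) hxU) (by simp; omega)
    (fun p hp => absurd hp (notMem_empty _))
    (fun b hb => by
      have := (h3 b (mem_erase.1 hb).1).2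
      have := hq b (mem_univ _)
      linarith)
    (by have := hy q; linarith)
  have hU1 : ∑ b ∈ univ.erase q, y1 b ≤ 1 := by
    rw [← h1]; exact sum_le_sum_of_subset_of_nonneg (subset_univ _) fun x _ _ => h0 x
  have h7 : η / 2 ^ k ≤ esym k univ y1 := by
    refine le_trans (div_le_div_of_nonneg_right he (by positivity)) ?_
    unfold esym
    rw [sum_div]
    refine sum_le_sum fun T hT => ?_
    rw [← (mem_powersetCard.1 hT).2, ← prod_const, ← prod_div_distrib]
    refine prod_le_prod (fun x _ => by have := hy x; positivity) fun x _ => ?_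
    by_cases hx : x = q
    · rw [hx, h2]; linarith [hy q]
    · exact (h3 x hx).1
  have h8 : esym k univ y1 ≤ 2 * esym (j - 1) (univ.erase q) y1 := by
    obtain ⟨k', rfl⟩ : ∃ k', k = k' + 1 := ⟨k - 1, by omega⟩
    have e := esym_insert k' (notMem_erase q (univ : Finset V)) y1
    rw [insert_erase (mem_univ q)] at e
    have e1 := esym_anti (univ.erase q) h0 hU1 (by omega : j - 1 ≤ k')
    have e2 := esym_anti (univ.erase q) h0 hU1 (by omega : j - 1 ≤ k' + 1)
    have e3 : y1 q ≤ 1 := by rw [← h1]; exact single_le_sum (fun x _ => h0 x) (mem_univ q)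
    have e4 := esym_nonneg k' (univ.erase q) h0
    have e5 := h0 q
    nlinarith
  have ht := H j hj1
  have h9 : (B / 2) ^ k * Real.exp (-K) * (η / 2 ^ k / 2)
      ≤ (B / 2) ^ j * Real.exp (-(K * ∑ b ∈ univ.erase q, y1 b))
        * esym (j - 1) (univ.erase q) y1 := by
    refine mul_le_mul (mul_le_mul (pow_le_pow_of_le_one (by positivity) (by linarith) hjk)
      (Real.exp_le_exp.2 (by nlinarith)) (Real.exp_pos _).le (by positivity)) (by linarith)
      (by positivity) (by positivity)
  have h10 : Real.exp (-(2 / η)) ≤ Real.exp (-(2 * (∑ b ∈ L, y b) / η)) := by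
    refine Real.exp_le_exp.2 (neg_le_neg (div_le_div_of_nonneg_right (by linarith) hη.le))
  have h11 := le_trans (mul_le_mul_of_nonneg_right h9 ht) h6
  have h12 := lam_nonneg c H h0 h1
  calc _ = Real.exp (-(2 / η)) * ((B / 2) ^ k * Real.exp (-K) * (η / 2 ^ k / 2) * tur c j) := by
        ring
    _ ≤ Real.exp (-(2 / η)) * lam c y1 := mul_le_mul_of_nonneg_left h11 (Real.exp_pos _).le
    _ ≤ Real.exp (-(2 * (∑ b ∈ L, y b) / η)) * lam c y1 := mul_le_mul_of_nonneg_right h10 h12
    _ ≤ lam c y := h5

end Pool.Agent.TurSp
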