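import Pool.Agent.TurSp.Defs
import Pool.Agent.TurSp.Finite

/-! Random graphs sampled from a graphon: first and second moments of clique counts. -/

namespace Pool.Agent.TurSp
open Finset MeasureTheory

variable {W : unitInterval → unitInterval → ℝ} {N : ℕ}

lemma mp_comp {J : Type} [Fintype J] {φ : J → Fin N} (hφ : Function.Injective φ) :
    MeasurePreserving (fun (x : Fin N → unitInterval) (j : J) => x (φ j)) volume volume := by
  refine ⟨measurable_pi_lambda _ fun j => measurable_pi_apply _, ?_⟩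
  have h1 : ProbabilityTheory.iIndepFun (fun (i : Fin N) (x : Fin N → unitInterval) => x i)
      (Measure.pi fun _ => volume) :=
    ProbabilityTheory.iIndepFun_pi (X := fun _ => id) fun _ => aemeasurable_id
  have h2 := h1.precomp hφ
  rw [ProbabilityTheory.iIndepFun_iff_map_fun_eq_pi_map
    (fun j => (measurable_pi_apply _).aemeasurable)] at h2
  rw [volume_pi, h2, volume_pi]
  congr 1
  funext j
  exact (measurePreserving_eval (fun _ : Fin N => (volume : Measure unitInterval)) (φ j)).map_eq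

/-- increasing pairs inside `T` -/
def pairs (T : Finset (Fin N)) : Finset (Fin N × Fin N) := (T ×ˢ T).filter (fun p => p.1 < p.2)

/-- product of the values of `W` over a set of pairs -/
noncomputable def pw (W : unitInterval → unitInterval → ℝ) (F : Finset (Fin N × Fin N))
    (x : Fin N → unitInterval) : ℝ := ∏ p ∈ F, W (x p.1) (x p.2)

lemma meas_W (hW : IsGraphon W) (a b : Fin N) :
    Measurable fun x : Fin N → unitInterval => W (x a) (x b) := by
  have h : Measurable fun x : Fin N → unitInterval => (x a, x b) :=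
    (measurable_pi_apply a).prodMk (measurable_pi_apply b)
  exact hW.1.comp h

lemma pw_meas (hW : IsGraphon W) (F : Finset (Fin N × Fin N)) : Measurable (pw W F) :=
  Finset.measurable_prod _ fun p _ => meas_W hW p.1 p.2

lemma pw_nonneg (hW : IsGraphon W) (F : Finset (Fin N × Fin N)) (x : Fin N → unitInterval) :
    0 ≤ pw W F x := prod_nonneg fun _ _ => (hW.2.2 _ _).1

lemma pw_le_one (hW : IsGraphon W) (F : Finset (Fin N × Fin N)) (x : Fin N → unitInterval) :
    pw W F x ≤ 1 := prod_le_one (fun _ _ => (hW.2.2 _ _).1) fun _ _ => (hW.2.2 _ _).2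

lemma integrable_of_unit {f : (Fin N → unitInterval) → ℝ} (hf : Measurable f)
    (h0 : ∀ x, 0 ≤ f x) (h1 : ∀ x, f x ≤ 1) : Integrable f :=
  Integrable.of_bound hf.aestronglyMeasurable 1
    (Filter.Eventually.of_forall fun x => by rw [Real.norm_of_nonneg (h0 x)]; exact h1 x)

lemma pw_int (hW : IsGraphon W) (F : Finset (Fin N × Fin N)) : Integrable (pw W F) :=
  integrable_of_unit (pw_meas hW F) (pw_nonneg hW F) (pw_le_one hW F)

lemma int_pw_le_one (hW : IsGraphon W) (F : Finset (Fin N × Fin N)) : ∫ x, pw W F x ≤ 1 := by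
  have := integral_mono (pw_int hW F) (integrable_const (1 : ℝ)) (pw_le_one hW F)
  simpa using this

lemma tK_eq (r : ℕ) : tK r W = ∫ x, pw W (pairs (univ : Finset (Fin r))) x := by
  unfold tK pw pairs; rw [univ_product_univ]

lemma tK_nonneg (hW : IsGraphon W) (r : ℕ) : 0 ≤ tK r W := by
  rw [tK_eq]; exact integral_nonneg (pw_nonneg hW _)

lemma tK_le_one (hW : IsGraphon W) (r : ℕ) : tK r W ≤ 1 := by
  rw [tK_eq]; exact int_pw_le_one hW _

lemma tK_one : tK 1 W = 1 := by
  unfold tK
  have : univ.filter (fun p : Fin 1 × Fin 1 => p.1 < p.2) = ∅ := by decide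
  simp [this]

lemma pw_pairs {T : Finset (Fin N)} {e : ℕ} (h : T.card = e) (x : Fin N → unitInterval) :
    pw W (pairs T) x = pw W (pairs (univ : Finset (Fin e))) fun j => x (T.orderEmbOfFin h j) := by
  unfold pw
  symm
  refine prod_bij (fun p _ => (T.orderEmbOfFin h p.1, T.orderEmbOfFin h p.2)) ?_ ?_ ?_ ?_
  · intro p hp
    exact mem_filter.2 ⟨mem_product.2 ⟨orderEmbOfFin_mem _ _ _, orderEmbOfFin_mem _ _ _⟩,
      (T.orderEmbOfFin h).strictMono (mem_filter.1 hp).2⟩
  · intro p _ q _ hpq
    have h1 := (T.orderEmbOfFin h).injective (Prod.mk.inj hpq).1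
    have h2 := (T.orderEmbOfFin h).injective (Prod.mk.inj hpq).2
    exact Prod.ext h1 h2
  · intro p hp
    obtain ⟨h1, h2⟩ := mem_filter.1 hp
    obtain ⟨h3, h4⟩ := mem_product.1 h1
    have h5 : p.1 ∈ Set.range (T.orderEmbOfFin h) := by rw [range_orderEmbOfFin]; exact h3
    have h6 : p.2 ∈ Set.range (T.orderEmbOfFin h) := by rw [range_orderEmbOfFin]; exact h4
    obtain ⟨a, ha⟩ := h5
    obtain ⟨b, hb⟩ := h6
    refine ⟨(a, b), mem_filter.2 ⟨mem_product.2 ⟨mem_univ _, mem_univ _⟩, ?_⟩, Prod.ext ha hb⟩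
    rw [← ha, ← hb] at h2
    exact (T.orderEmbOfFin h).lt_iff_lt.1 h2
  · intro p _; rfl

lemma int_pairs (hW : IsGraphon W) {T : Finset (Fin N)} {e : ℕ} (h : T.card = e) :
    ∫ x, pw W (pairs T) x = tK e W := by
  simp only [pw_pairs h]
  rw [tK_eq]
  have hm := mp_comp (T.orderEmbOfFin h).injective
  rw [← hm.map_eq, integral_map hm.measurable.aemeasurable (pw_meas hW _).aestronglyMeasurable]

lemma int_pairs_mul (hW : IsGraphon W) {T T' : Finset (Fin N)} {e e' : ℕ} (h : T.card = e)
    (h' : T'.card = e') (hd : Disjoint T T') :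
    ∫ x, pw W (pairs T) x * pw W (pairs T') x = tK e W * tK e' W := by
  simp only [pw_pairs h, pw_pairs h']
  rw [tK_eq, tK_eq, ← integral_prod_mul]
  have hinj : Function.Injective
      (Sum.elim (T.orderEmbOfFin h) (T'.orderEmbOfFin h') : Fin e ⊕ Fin e' → Fin N) :=
    Function.Injective.sumElim (T.orderEmbOfFin h).injective (T'.orderEmbOfFin h').injective
      fun a b hab => disjoint_left.1 hd (orderEmbOfFin_mem T h a)
        (by rw [hab]; exact orderEmbOfFin_mem T' h' b)
  have hm := (measurePreserving_sumPiEquivProdPi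
    (fun _ : Fin e ⊕ Fin e' => (volume : Measure unitInterval))).comp (mp_comp hinj)
  have hmeas : Measurable fun z : (Fin e → unitInterval) × (Fin e' → unitInterval) =>
      pw W (pairs univ) z.1 * pw W (pairs univ) z.2 :=
    ((pw_meas hW _).comp measurable_fst).mul ((pw_meas hW _).comp measurable_snd)
  rw [volume_pi, volume_pi, volume_pi] at *
  rw [← hm.map_eq, integral_map hm.measurable.aemeasurable hmeas.aestronglyMeasurable]
  rfl

lemma pairs_disjoint {T T' : Finset (Fin N)} (hd : Disjoint T T') :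
    Disjoint (pairs T) (pairs T') := by
  rw [disjoint_left]
  intro p hp hp'
  exact disjoint_left.1 hd (mem_product.1 (mem_filter.1 hp).1).1
    (mem_product.1 (mem_filter.1 hp').1).1

lemma pairs_subset (T : Finset (Fin N)) : pairs T ⊆ pairs univ := fun _ hp =>
  mem_filter.2 ⟨mem_product.2 ⟨mem_univ _, mem_univ _⟩, (mem_filter.1 hp).2⟩

lemma tK_add_two_le (hW : IsGraphon W) (r : ℕ) : tK (r + 2) W ≤ tK r W * tK 2 W := by
  obtain ⟨T, -, hT⟩ := exists_subset_card_eq
    (s := (univ : Finset (Fin (r + 2)))) (n := 2) (by simp)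
  have hT' : (Tᶜ).card = r := by rw [card_compl, hT]; simp
  rw [← int_pairs_mul hW hT' hT disjoint_compl_left, tK_eq]
  refine integral_mono (pw_int hW _) (integrable_of_unit ((pw_meas hW _).mul (pw_meas hW _))
    (fun x => mul_nonneg (pw_nonneg hW _ x) (pw_nonneg hW _ x))
    fun x => mul_le_one₀ (pw_le_one hW _ x) (pw_nonneg hW _ x) (pw_le_one hW _ x)) fun x => ?_
  unfold pw
  simp only
  rw [← prod_union (pairs_disjoint disjoint_compl_left)]
  exact prod_le_prod_of_subset_of_le_one (union_subset (pairs_subset _) (pairs_subset _))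
    (fun _ _ => (hW.2.2 _ _).1) fun _ _ _ => (hW.2.2 _ _).2

/-- probability of the edge set `S` in the random graph on `N` vertices -/
noncomputable def pr (W : unitInterval → unitInterval → ℝ) (S : Finset (Fin N × Fin N)) : ℝ :=
  ∫ x : Fin N → unitInterval, pw W S x * ∏ p ∈ pairs univ \ S, (1 - W (x p.1) (x p.2))

/-- the graph with edge set `S` -/
def gr (S : Finset (Fin N × Fin N)) : SimpleGraph (Fin N) :=
  SimpleGraph.fromRel fun a b => (a, b) ∈ S

lemma pr_aux (hW : IsGraphon W) (S : Finset (Fin N × Fin N)) (x : Fin N → unitInterval) :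
    0 ≤ ∏ p ∈ pairs univ \ S, (1 - W (x p.1) (x p.2)) ∧
      ∏ p ∈ pairs univ \ S, (1 - W (x p.1) (x p.2)) ≤ 1 :=
  ⟨prod_nonneg fun _ _ => sub_nonneg.2 (hW.2.2 _ _).2,
    prod_le_one (fun _ _ => sub_nonneg.2 (hW.2.2 _ _).2) fun _ _ => sub_le_self _ (hW.2.2 _ _).1⟩

lemma pr_nonneg (hW : IsGraphon W) (S : Finset (Fin N × Fin N)) : 0 ≤ pr W S :=
  integral_nonneg fun x => mul_nonneg (pw_nonneg hW S x) (pr_aux hW S x).1

lemma sum_pr (hW : IsGraphon W) {F : Finset (Fin N × Fin N)} (hF : F ⊆ pairs univ) :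
    ∑ S ∈ (pairs univ).powerset, pr W S * (if F ⊆ S then 1 else 0) = ∫ x, pw W F x := by
  have e1 : ∀ S : Finset (Fin N × Fin N), pr W S * (if F ⊆ S then 1 else 0)
      = ∫ x : Fin N → unitInterval, pw W S x * (∏ p ∈ pairs univ \ S, (1 - W (x p.1) (x p.2)))
        * (if F ⊆ S then 1 else 0) := fun S => by rw [integral_mul_const]; rfl
  simp only [e1]
  rw [← integral_finsetSum]
  · congr 1
    funext x
    have e2 := prod_add (fun p : Fin N × Fin N => W (x p.1) (x p.2))
      (fun p => if p ∈ F then 0 else 1 - W (x p.1) (x p.2)) (pairs univ)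
    have e3 : ∏ p ∈ pairs univ, (W (x p.1) (x p.2) + if p ∈ F then 0 else 1 - W (x p.1) (x p.2))
        = pw W F x := by
      unfold pw
      rw [← prod_subset hF fun p _ hp => by simp [hp]]
      exact prod_congr rfl fun p hp => by simp [hp]
    rw [← e3, e2]
    refine sum_congr rfl fun S _ => ?_
    unfold pw
    rw [mul_assoc]
    congr 1
    split_ifs with h
    · rw [mul_one]
      refine prod_congr rfl fun p hp => ?_
      rw [if_neg fun hpF => (mem_sdiff.1 hp).2 (h hpF)]
    · obtain ⟨p, hp, hpS⟩ := not_subset.1 h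
      rw [mul_zero]
      symm
      refine prod_eq_zero (mem_sdiff.2 ⟨hF hp, hpS⟩) ?_
      rw [if_pos hp]
  · intro S _
    refine Integrable.mul_const (integrable_of_unit ((pw_meas hW S).mul
      (Finset.measurable_prod _ fun p _ => measurable_const.sub (meas_W hW p.1 p.2)))
      (fun x => mul_nonneg (pw_nonneg hW S x) (pr_aux hW S x).1)
      fun x => mul_le_one₀ (pw_le_one hW S x) (pr_aux hW S x).1 (pr_aux hW S x).2) _

lemma sum_pr_one (hW : IsGraphon W) :
    ∑ S ∈ (pairs (univ : Finset (Fin N))).powerset, pr W S = 1 := by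
  have := sum_pr (N := N) hW (empty_subset _)
  simpa [pw] using this

lemma clique_iff {S : Finset (Fin N × Fin N)} (hS : S ⊆ pairs univ) (T : Finset (Fin N)) :
    (gr S).IsClique (T : Set (Fin N)) ↔ pairs T ⊆ S := by
  constructor
  · intro h p hp
    obtain ⟨h1, h2⟩ := mem_filter.1 hp
    obtain ⟨h3, h4⟩ := mem_product.1 h1
    have h5 := h h3 h4 h2.ne
    rw [gr, SimpleGraph.fromRel_adj] at h5
    rcases h5.2 with h6 | h6
    · exact h6
    · exact absurd (mem_filter.1 (hS h6)).2 (not_lt.2 h2.le)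
  · intro h a ha b hb hab
    rw [gr, SimpleGraph.fromRel_adj]
    refine ⟨hab, ?_⟩
    rcases lt_or_gt_of_ne hab with h1 | h1
    · exact Or.inl (h (mem_filter.2 ⟨mem_product.2 ⟨ha, hb⟩, h1⟩))
    · exact Or.inr (h (mem_filter.2 ⟨mem_product.2 ⟨hb, ha⟩, h1⟩))

/-- the uniform weighting -/
noncomputable def un (N : ℕ) : Fin N → ℝ := fun _ => 1 / (N : ℝ)

lemma cl_gr {S : Finset (Fin N × Fin N)} (hS : S ⊆ pairs univ) (e : ℕ) :
    cl (gr S) e (un N) = (1 / (N : ℝ)) ^ e
      * ∑ T ∈ powersetCard e univ, if pairs T ⊆ S then (1 : ℝ) else 0 := by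
  unfold cl form un
  rw [powersetCard_eq_filter, powerset_univ, sum_filter, mul_sum]
  refine sum_congr rfl fun T _ => ?_
  simp only [clique_iff hS T, prod_const]
  by_cases h1 : T.card = e <;> by_cases h2 : pairs T ⊆ S <;> simp [h1, h2]

lemma first_moment (hW : IsGraphon W) (e : ℕ) :
    ∑ S ∈ (pairs (univ : Finset (Fin N))).powerset, pr W S * cl (gr S) e (un N)
      = (1 / (N : ℝ)) ^ e * (N.choose e * tK e W) := by
  rw [sum_congr rfl fun S hS => by rw [cl_gr (mem_powerset.1 hS), mul_left_comm, mul_sum],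
    ← mul_sum, sum_comm]
  congr 1
  rw [sum_congr rfl fun T hT => by
    rw [sum_pr hW (pairs_subset T), int_pairs hW (mem_powersetCard.1 hT).2]]
  simp

lemma second_moment (hW : IsGraphon W) (e : ℕ) :
    ∑ S ∈ (pairs (univ : Finset (Fin N))).powerset, pr W S * cl (gr S) e (un N) ^ 2
      ≤ ((1 / (N : ℝ)) ^ e) ^ 2 * (N.choose e
        * (N.choose e - ((N - e).choose e : ℕ) * (1 - tK e W ^ 2))) := by
  have e1 : ∀ S ∈ (pairs (univ : Finset (Fin N))).powerset, pr W S * cl (gr S) e (un N) ^ 2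
      = ((1 / (N : ℝ)) ^ e) ^ 2 * ∑ T ∈ powersetCard e univ, ∑ T' ∈ powersetCard e univ,
        pr W S * (if pairs T ∪ pairs T' ⊆ S then (1 : ℝ) else 0) := by
    intro S hS
    rw [cl_gr (mem_powerset.1 hS), mul_pow, mul_left_comm, sq (∑ T ∈ _, _), sum_mul_sum, mul_sum]
    congr 1
    refine sum_congr rfl fun T _ => ?_
    rw [mul_sum]
    refine sum_congr rfl fun T' _ => ?_
    by_cases h1 : pairs T ⊆ S <;> by_cases h2 : pairs T' ⊆ S <;> simp [h1, h2, union_subset_iff]
  rw [sum_congr rfl e1, ← mul_sum, sum_comm]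
  refine mul_le_mul_of_nonneg_left ?_ (sq_nonneg _)
  have hc : ((powersetCard e (univ : Finset (Fin N))).card : ℝ) = N.choose e := by simp
  rw [← hc, ← nsmul_eq_mul, ← sum_const]
  refine sum_le_sum fun T hT => ?_
  have hT' := (mem_powersetCard.1 hT).2
  rw [sum_comm, sum_congr rfl fun T' _ =>
    sum_pr hW (union_subset (pairs_subset T) (pairs_subset T'))]
  have e2 : ∀ T' ∈ powersetCard e (univ : Finset (Fin N)), ∫ x, pw W (pairs T ∪ pairs T') x
      ≤ 1 - (if Disjoint T T' then 1 - tK e W ^ 2 else 0) := by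
    intro T' hT''
    split_ifs with h
    · have : ∀ x, pw W (pairs T ∪ pairs T') x = pw W (pairs T) x * pw W (pairs T') x :=
        fun x => prod_union (pairs_disjoint h)
      simp only [this]
      rw [int_pairs_mul hW hT' (mem_powersetCard.1 hT'').2 h]; linarith
    · rw [sub_zero]; exact int_pw_le_one hW _
  refine le_trans (sum_le_sum e2) (le_of_eq ?_)
  rw [sum_sub_distrib, ← sum_filter]
  have e3 : (powersetCard e (univ : Finset (Fin N))).filter (fun T' => Disjoint T T')
      = powersetCard e Tᶜ := by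
    ext T'
    simp only [mem_filter, mem_powersetCard, subset_univ, true_and, subset_compl_iff_disjoint_left]
    tauto
  rw [e3]
  simp [card_compl, hT', mul_sub]

end Pool.Agent.TurSp
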