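import Pool.Agent.TurSp.Transfer

/-! The explicit weights, the representation of clique densities and its geometric consequence. -/

namespace Pool.Agent.TurSp
open Finset MeasureTheory Filter Topology

variable {W : unitInterval → unitInterval → ℝ}

lemma sum_mul_choose (n : ℕ) (y : ℝ) :
    ∑ l ∈ range (n + 2), (l : ℝ) * ((n + 1).choose l : ℝ) * y ^ l = (n + 1) * y * (y + 1) ^ n := by
  rw [sum_range_succ', add_pow, mul_sum]
  simp only [Nat.cast_zero, zero_mul, add_zero, one_pow, mul_one]
  refine sum_congr rfl fun l _ => ?_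
  have h : ((n + 1 : ℕ) : ℝ) * (n.choose l : ℝ) = ((n + 1).choose (l + 1) : ℝ) * ((l + 1 : ℕ) : ℝ) := by
    exact_mod_cast Nat.add_one_mul_choose_eq n l
  push_cast at h ⊢
  rw [pow_succ]
  linear_combination (-(y ^ l * y)) * h

lemma tur_coef {i j : ℕ} (hi : 1 ≤ i) (hj : 1 ≤ j) :
    tur (coef j) i = if i = j then 1 else 0 := by
  unfold tur
  by_cases hij : i < j
  · rw [if_neg hij.ne]
    refine sum_eq_zero fun e he => ?_
    have : e < j := by have := mem_range.1 he; omega
    simp [coef, Nat.choose_eq_zero_of_lt this]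
  obtain ⟨n, rfl⟩ : ∃ n, i = j + n := ⟨i - j, by omega⟩
  obtain ⟨j, rfl⟩ : ∃ j', j = j' + 1 := ⟨j - 1, by omega⟩
  have hi0 : (0 : ℝ) < ((j + 1 + n : ℕ) : ℝ) := by positivity
  set I : ℝ := ((j + 1 + n : ℕ) : ℝ) with hI
  set y : ℝ := -(((j + 1 : ℕ) : ℝ) / I) with hy
  rw [add_assoc (j + 1) n 1, sum_range_add, sum_eq_zero (s := range (j + 1)) fun e he => by
    simp [coef, Nat.choose_eq_zero_of_lt (mem_range.1 he)], zero_add]
  have key : ∀ l ∈ range (n + 1),
      coef (j + 1) (j + 1 + l) * (((j + 1 + n).descFactorial (j + 1 + l) : ℝ) / I ^ (j + 1 + l))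
        = ((j + 1 + n).choose (j + 1) : ℝ) * (((j + 1 : ℕ) : ℝ) ^ j / I ^ (j + 1))
          * (((j + 1 : ℕ) : ℝ) * (y ^ l * (n.choose l : ℝ)) + (l : ℝ) * (n.choose l : ℝ) * y ^ l) := by
    intro l _
    have h1 : ((j + 1 + n).choose (j + 1 + l) : ℝ) * ((j + 1 + l).choose (j + 1) : ℝ)
        = ((j + 1 + n).choose (j + 1) : ℝ) * (n.choose l : ℝ) := by
      have := Nat.choose_mul (n := j + 1 + n) (k := j + 1 + l) (s := j + 1) (by omega)
      rw [Nat.add_sub_cancel_left, Nat.add_sub_cancel_left] at this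
      exact_mod_cast this
    have h2 : j + 1 + l - 1 = j + l := by omega
    have h3 : ((j + 1 + l).factorial : ℝ) = (((j + 1 : ℕ) : ℝ) + l) * ((j + l).factorial : ℝ) := by
      rw [show j + 1 + l = (j + l) + 1 by ring, Nat.factorial_succ]; push_cast; ring
    have h4 : (-1 : ℝ) ^ (j + 1 + l + (j + 1)) = (-1) ^ l := by
      rw [show j + 1 + l + (j + 1) = l + 2 * (j + 1) by ring, pow_add, pow_mul]; simp
    have h5 : y ^ l = (-1) ^ l * (((j + 1 : ℕ) : ℝ) ^ l / I ^ l) := by
      rw [hy, neg_pow, div_pow]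
    have h6 : (0 : ℝ) < ((j + l).factorial : ℝ) := by exact_mod_cast (j + l).factorial_pos
    rw [coef, h2, h4, Nat.descFactorial_eq_factorial_mul_choose, Nat.cast_mul, h3, h5, pow_add,
      pow_add I (j + 1) l]
    field_simp
    linear_combination h1
  rw [sum_congr rfl key, ← mul_sum, sum_add_distrib, ← mul_sum]
  have h7 : ∑ l ∈ range (n + 1), y ^ l * (n.choose l : ℝ) = (y + 1) ^ n := by
    rw [add_pow]; simp
  rw [h7]
  cases n with
  | zero =>
    simp only [add_zero, if_true, Nat.choose_self, zero_add, range_one, sum_singleton] at hI ⊢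
    rw [hI, pow_succ]
    field_simp
    simp
  | succ n =>
    rw [if_neg (by omega), sum_mul_choose]
    have : ((j + 1 : ℕ) : ℝ) * (y + 1) + (n + 1) * y = 0 := by
      rw [hy]; field_simp; rw [hI]; push_cast; ring
    rw [pow_succ (y + 1)]
    have h8 : ((j + 1 : ℕ) : ℝ) * ((y + 1) ^ n * (y + 1)) + (n + 1) * y * (y + 1) ^ n = 0 := by
      linear_combination (y + 1) ^ n * this
    rw [h8, mul_zero]

lemma summable_coef (j : ℕ) : Summable fun e => |coef j e| := by
  rw [← summable_nat_add_iff 1]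
  refine Summable.of_nonneg_of_le (fun _ => abs_nonneg _) (fun e => ?_)
    ((Real.summable_pow_div_factorial (2 * j)).mul_left 2)
  have h1 : ((e + 1).choose j : ℝ) ≤ 2 ^ (e + 1) := by exact_mod_cast Nat.choose_le_two_pow _ _
  rw [coef, Nat.add_sub_cancel, abs_div, abs_mul, abs_mul, abs_pow, abs_neg, abs_one, one_pow,
    one_mul, Nat.abs_cast, Nat.abs_cast, abs_of_nonneg (by positivity), ← mul_div_assoc]
  refine div_le_div_of_nonneg_right ?_ (by positivity)
  rw [mul_pow, ← mul_assoc, ← pow_succ']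
  exact mul_le_mul_of_nonneg_right h1 (by positivity)

lemma summable_mul (hW : IsGraphon W) {c : ℕ → ℝ} (hc : Summable fun e => |c e|) :
    Summable fun e => c e * tK e W := by
  refine Summable.of_norm_bounded hc fun e => ?_
  rw [Real.norm_eq_abs, abs_mul, abs_of_nonneg (tK_nonneg hW e)]
  exact mul_le_of_le_one_right (abs_nonneg _) (tK_le_one hW e)

lemma weight_nonneg (hW : IsGraphon W) {j : ℕ} (hj : 1 ≤ j) : 0 ≤ weight j W :=
  graphon_nonneg hW (summable_coef j) fun i hi => by
    rw [tur_coef hi hj]; split_ifs <;> norm_num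

lemma tur_delta {i : ℕ} (hi : 1 ≤ i) (e : ℕ) :
    tur (fun r => if r = e then 1 else 0) i = tail e (1 / (i : ℝ)) := by
  unfold tur
  simp only [desc_eq_tail hi, ite_mul, one_mul, zero_mul, sum_ite_eq']
  split_ifs with h
  · rfl
  · exact (tail_eq_zero hi (by simpa using h)).symm

lemma half_le_tail {r : ℕ} {x : ℝ} (hx : 0 ≤ x) (h : (r : ℝ) * x ≤ 1) :
    1 - (r : ℝ) ^ 2 * x / 2 ≤ tail r x := by
  induction r with
  | zero => simp [tail]
  | succ r ih =>
    push_cast at h ⊢
    have hr : (0 : ℝ) ≤ r := Nat.cast_nonneg r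
    have h1 : (r : ℝ) * x ≤ 1 := by nlinarith
    have h2 := mul_le_mul_of_nonneg_right (ih h1) (sub_nonneg.2 h1)
    rw [tail_succ]
    have h3 : 0 ≤ (r : ℝ) ^ 2 * x * (r * x) := by positivity
    nlinarith

lemma tK_le_pow (hW : IsGraphon W) (n : ℕ) : tK (2 * n) W ≤ tK 2 W ^ n := by
  induction n with
  | zero => simpa using tK_le_one hW 0
  | succ n ih =>
    rw [Nat.mul_succ, pow_succ]
    exact le_trans (tK_add_two_le hW _) (mul_le_mul_of_nonneg_right ih (tK_nonneg hW 2))

/-- two-sided estimate for the remainder of the representation -/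
lemma remainder (hW : IsGraphon W) (e J r : ℕ) (hJ : r ^ 2 ≤ J) :
    0 ≤ tK e W - ∑ j ∈ range J, weight (j + 1) W * tail e (1 / ((j : ℝ) + 1)) ∧
    tK e W - ∑ j ∈ range J, weight (j + 1) W * tail e (1 / ((j : ℝ) + 1)) ≤ 2 * tK r W := by
  set c : ℕ → ℝ := fun s => (if s = e then 1 else 0)
    - ∑ j ∈ range J, tail e (1 / ((j : ℝ) + 1)) * coef (j + 1) s with hc
  have sd : ∀ e : ℕ, Summable fun s : ℕ => if s = e then (1 : ℝ) else 0 :=
    fun e => (hasSum_ite_eq e (1 : ℝ)).summable
  have sc : Summable c := (sd e).sub (summable_sum fun j _ =>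
    (summable_coef (j + 1)).of_abs.mul_left _)
  have hd : ∀ e : ℕ, HasSum (fun s : ℕ => (if s = e then (1 : ℝ) else 0) * tK s W) (tK e W) := by
    intro e
    refine (congrArg (fun f => HasSum f _) ?_).mp (hasSum_ite_eq e (tK e W))
    funext s
    by_cases h : s = e <;> simp [h]
  have hs : HasSum (fun s => c s * tK s W)
      (tK e W - ∑ j ∈ range J, weight (j + 1) W * tail e (1 / ((j : ℝ) + 1))) := by
    have h1 := (hd e).sub (hasSum_sum (s := range J) fun j _ =>
      ((summable_mul hW (summable_coef (j + 1))).hasSum.mul_right (tail e (1 / ((j : ℝ) + 1)))))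
    refine (congrArg (fun f => HasSum f _) ?_).mp h1
    funext s
    simp only [hc, sub_mul, sum_mul]
    congr 1
    exact sum_congr rfl fun j _ => by ring
  have ht : ∀ i, 1 ≤ i → tur c i = if i ≤ J then 0 else tail e (1 / (i : ℝ)) := by
    intro i hi
    have e1 : tur c i = tur (fun s => if s = e then 1 else 0) i
        - ∑ j ∈ range J, tail e (1 / ((j : ℝ) + 1)) * tur (coef (j + 1)) i := by
      simp only [tur, hc, sub_mul, sum_sub_distrib, sum_mul, mul_sum]
      rw [sum_comm]
      congr 1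
      exact sum_congr rfl fun j _ => sum_congr rfl fun s _ => by ring
    rw [e1, tur_delta hi, sum_congr rfl fun j _ => by rw [tur_coef hi (Nat.le_add_left 1 j)]]
    obtain ⟨i, rfl⟩ : ∃ i', i = i' + 1 := ⟨i - 1, by omega⟩
    simp only [mul_ite, mul_one, mul_zero, add_left_inj, sum_ite_eq, mem_range]
    by_cases h : i < J
    · rw [if_pos h, if_pos (by omega)]; push_cast; ring
    · rw [if_neg h, if_neg (by omega)]; ring
  constructor
  · rw [← hs.tsum_eq]
    refine graphon_nonneg hW sc.abs fun i hi => ?_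
    rw [ht i hi]; split_ifs; exacts [le_rfl, tail_nonneg hi e]
  · have h2 := ((hd r).mul_left 2).sub hs
    have h3 := graphon_nonneg hW (c := fun s => 2 * (if s = r then 1 else 0) - c s)
      (((sd r).mul_left 2).sub sc).abs fun i hi => by
        have e1 : tur (fun s => 2 * (if s = r then 1 else 0) - c s) i
            = 2 * tur (fun s => if s = r then 1 else 0) i - tur c i := by
          simp only [tur, sub_mul, sum_sub_distrib, mul_sum, mul_assoc]
        rw [e1, tur_delta hi, ht i hi]
        split_ifs with h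
        · have := tail_nonneg hi r; linarith
        · have hi0 : (0 : ℝ) < i := by positivity
          have h4 : (r : ℝ) ^ 2 ≤ i := by exact_mod_cast (by omega : r ^ 2 ≤ i)
          have h5 : (r : ℝ) ≤ i := by
            have : r ≤ r ^ 2 := Nat.le_self_pow two_ne_zero r
            exact_mod_cast (by omega : r ≤ i)
          have h6 := half_le_tail (r := r) (x := 1 / (i : ℝ)) (by positivity)
            (by rw [mul_one_div, div_le_one hi0]; exact h5)
          have h7 : (r : ℝ) ^ 2 * (1 / (i : ℝ)) ≤ 1 := by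
            rw [mul_one_div, div_le_one hi0]; exact h4
          have := tail_le_one hi e
          linarith
    have h4 : HasSum (fun s => (2 * (if s = r then 1 else 0) - c s) * tK s W) (2 * tK r W
        - (tK e W - ∑ j ∈ range J, weight (j + 1) W * tail e (1 / ((j : ℝ) + 1)))) := by
      refine (congrArg (fun f => HasSum f _) ?_).mp h2
      funext s; ring
    rw [h4.tsum_eq] at h3
    linarith

theorem represent (hW : IsGraphon W) (h2 : tK 2 W < 1) (e : ℕ) :
    HasSum (fun j : ℕ => weight (j + 1) W * tail e (1 / ((j : ℝ) + 1))) (tK e W) := by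
  rw [hasSum_iff_tendsto_nat_of_nonneg fun j => mul_nonneg (weight_nonneg hW (by omega))
    (by have := tail_nonneg (i := j + 1) (by omega) e; push_cast at this; exact this),
    Metric.tendsto_atTop]
  intro ε hε
  obtain ⟨n, hn⟩ := exists_pow_lt_of_lt_one (half_pos hε) h2
  refine ⟨(2 * n) ^ 2, fun J hJ => ?_⟩
  obtain ⟨h3, h4⟩ := remainder hW e J (2 * n) hJ
  have := tK_le_pow hW n
  rw [Real.dist_eq, abs_lt]
  constructor <;> linarith

lemma weight_sum (hW : IsGraphon W) (h2 : tK 2 W < 1) :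
    HasSum (fun j : ℕ => weight (j + 1) W) 1 := by
  have := represent hW h2 1
  simpa [tail, tK_one] using this

/-- equality in the inequality of Goodman puts all the weight on one point -/
lemma point_mass (hW : IsGraphon W) (h2 : tK 2 W < 1)
    (hD : tK 3 W - tK 2 W * (2 * tK 2 W - 1) ≤ 0) :
    ∃ j : ℕ, 1 ≤ j ∧ ∀ r, tK r W = tail r (1 / (j : ℝ)) := by
  have s1 := weight_sum hW h2
  have s2 := represent hW h2 2
  have s3 := represent hW h2 3
  set μ := 1 - tK 2 W with hμ
  have s4 : HasSum (fun j : ℕ => weight (j + 1) W * (1 / ((j : ℝ) + 1) - μ) ^ 2)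
      ((tK 3 W - tK 2 W * (2 * tK 2 W - 1)) / 2) := by
    have h1 := ((s3.mul_left (1 / 2)).add (s1.mul_left (1 - 2 * μ + μ ^ 2))).sub
      (s2.mul_left (3 / 2 - 2 * μ))
    have e1 : 1 / 2 * tK 3 W + (1 - 2 * μ + μ ^ 2) * 1 - (3 / 2 - 2 * μ) * tK 2 W
        = (tK 3 W - tK 2 W * (2 * tK 2 W - 1)) / 2 := by rw [hμ]; ring
    rw [e1] at h1
    refine (congrArg (fun f => HasSum f _) ?_).mp h1
    funext j
    have t2 : ∀ x, tail 2 x = 1 - x := fun x => by simp [tail]
    have t3 : ∀ x, tail 3 x = (1 - x) * (1 - 2 * x) := fun x => by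
      rw [tail_succ, t2]; norm_num
    rw [t2, t3]; ring
  have hz : ∀ j : ℕ, weight (j + 1) W * (1 / ((j : ℝ) + 1) - μ) ^ 2 = 0 := fun j =>
    le_antisymm (le_trans (le_hasSum s4 j fun i _ =>
      mul_nonneg (weight_nonneg hW (by omega)) (sq_nonneg _)) (by linarith))
      (mul_nonneg (weight_nonneg hW (by omega)) (sq_nonneg _))
  obtain ⟨j, hj⟩ : ∃ j : ℕ, weight (j + 1) W ≠ 0 := by
    by_contra h
    push Not at h
    simp only [h] at s1
    exact zero_ne_one (hasSum_zero.unique s1)
  have hx : ∀ i : ℕ, weight (i + 1) W ≠ 0 → 1 / ((i : ℝ) + 1) = μ := fun i hi =>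
    sub_eq_zero.1 (pow_eq_zero_iff two_ne_zero |>.1 ((mul_eq_zero.1 (hz i)).resolve_left hi))
  have h0 : ∀ i : ℕ, i ≠ j → weight (i + 1) W = 0 := by
    intro i hi
    by_contra h
    have h3 := (hx i h).trans (hx j hj).symm
    rw [div_eq_div_iff (by positivity) (by positivity)] at h3
    exact hi (by exact_mod_cast (by linarith : (i : ℝ) = j))
  have h1 : weight (j + 1) W = 1 := (hasSum_single j h0).unique s1
  refine ⟨j + 1, by omega, fun r => ?_⟩
  have h3 := (hasSum_single j fun i hi => by rw [h0 i hi, zero_mul]).unique (represent hW h2 r)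
  rw [← h3, h1, one_mul]; push_cast; rfl

lemma triangular {m : ℕ} {e : Fin m → ℕ} (he : StrictMono e) (h1 : ∀ i, 1 ≤ e i)
    (f : (Fin m → ℝ) →ₗ[ℝ] ℝ) (hf : ∀ l, f (fun i => tail (e i) (1 / (e l : ℝ))) = 0) : f = 0 := by
  have key : ∀ (n : ℕ) (l : Fin m), l.1 < n → f (fun j => if l = j then 1 else 0) = 0 := by
    intro n
    induction n with
    | zero => intro l hl; omega
    | succ n ih =>
      intro l hl
      have h2 := hf l
      rw [LinearMap.pi_apply_eq_sum_univ, sum_eq_single l (fun i _ hi => ?_) (by simp)] at h2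
      · exact (smul_eq_zero.1 h2).resolve_left (tail_pos (h1 l) le_rfl).ne'
      · rcases lt_or_gt_of_ne hi with h | h
        · rw [ih i (by have := Fin.lt_def.1 h; omega), smul_zero]
        · rw [tail_eq_zero (h1 l) (he h), zero_smul]
  refine LinearMap.ext fun x => ?_
  rw [LinearMap.pi_apply_eq_sum_univ]
  exact sum_eq_zero fun i _ => by rw [key _ i (Nat.lt_succ_self _), smul_zero]

lemma mem_interior_hull (hW : IsGraphon W) (h2 : tK 2 W < 1) {m : ℕ} {e : Fin m → ℕ}
    (he : StrictMono e) (h1 : ∀ i, 2 ≤ e i) (hw1 : 0 < weight 1 W)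
    (hw : ∀ i, 0 < weight (e i) W) : (fun i => tK (e i) W) ∈ interior (hull e) := by
  set s : ℕ → Fin m → ℝ := fun k i => tail (e i) (1 / ((k : ℝ) + 1)) with hs
  have hs0 : s 0 = 0 := by
    funext i
    have := tail_eq_zero (i := 1) (e := e i) le_rfl (h1 i)
    simpa [hs] using this
  have hsl : ∀ l, s (e l - 1) = fun i => tail (e i) (1 / (e l : ℝ)) := by
    intro l
    have : ((e l - 1 : ℕ) : ℝ) + 1 = e l := by
      have := h1 l
      exact_mod_cast (by omega : e l - 1 + 1 = e l)
    simp only [hs, this]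
  have hmem : ∀ k, s k ∈ insert (1 : Fin m → ℝ) (Set.range s) := fun k =>
    Set.mem_insert_of_mem _ ⟨k, rfl⟩
  have hne : (interior (hull e)).Nonempty := by
    rw [hull, interior_convexHull_nonempty_iff_affineSpan_eq_top,
      AffineSubspace.affineSpan_eq_top_iff_vectorSpan_eq_top_of_nonempty _ _ _ ⟨_, hmem 0⟩]
    by_contra h
    obtain ⟨f, hf0, hf⟩ := Submodule.exists_le_ker_of_lt_top _ (lt_top_iff_ne_top.2 h)
    refine hf0 (triangular he (fun i => by have := h1 i; omega) f fun l => ?_)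
    have := hf (vsub_mem_vectorSpan ℝ (hmem (e l - 1)) (hmem 0))
    rw [hs0, hsl] at this
    simpa using this
  by_contra hv
  obtain ⟨f, u, hf0, hfu, hfv⟩ := geometric_hahn_banach_of_nonempty_interior
    (convex_convexHull ℝ _) (convex_singleton (fun i => tK (e i) W))
    (Set.disjoint_singleton_right.2 hv) hne (Set.singleton_nonempty _)
  have h3 : ∀ k, f (s k) ≤ f (fun i => tK (e i) W) := fun k =>
    le_trans (hfu _ (subset_convexHull ℝ _ (hmem k))) (hfv _ rfl)
  have h4 : HasSum (fun k : ℕ => weight (k + 1) W • s k) (fun i => tK (e i) W) :=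
    Pi.hasSum.2 fun i => represent hW h2 (e i)
  have h5 := ((weight_sum hW h2).mul_right (f fun i => tK (e i) W)).sub (f.hasSum h4)
  have h6 : ∀ k, 0 < weight (k + 1) W → f (s k) = f (fun i => tK (e i) W) := by
    intro k hk
    have h7 := le_hasSum h5 k fun i _ => by
      rw [map_smul, smul_eq_mul, ← mul_sub]
      exact mul_nonneg (weight_nonneg hW (by omega)) (sub_nonneg.2 (h3 i))
    rw [map_smul, smul_eq_mul] at h7
    nlinarith [h3 k]
  have h8 : f (fun i => tK (e i) W) = 0 := by rw [← h6 0 hw1, hs0, map_zero]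
  have h9 : (f : (Fin m → ℝ) →ₗ[ℝ] ℝ) = 0 := by
    refine triangular he (fun i => by have := h1 i; omega) _ fun l => ?_
    have := h6 (e l - 1) (by
      have := h1 l
      rw [show e l - 1 + 1 = e l by omega]; exact hw l)
    rw [hsl, h8] at this
    exact this
  exact hf0 (ContinuousLinearMap.coe_injective h9)

end Pool.Agent.TurSp
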