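import Pool.Agent.TurSp.Form

/-! Linear clique functionals on complete multipartite weightings: two-part moves. -/

set_option linter.unusedSectionVars false

namespace Pool.Agent.TurSp
open Finset

variable {V : Type} [Fintype V] [DecidableEq V]

/-- the functional `∑ c e * t(K_e)` on the complete graph with vertex weights `y` -/
noncomputable def lam (c : ℕ → ℝ) (y : V → ℝ) : ℝ :=
  form (fun T => c T.card * (T.card.factorial : ℝ)) y

/-- its value on the balanced complete `j`-partite graph -/
noncomputable def tur (c : ℕ → ℝ) (j : ℕ) : ℝ :=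
  ∑ e ∈ range (j + 1), c e * ((j.descFactorial e : ℝ) / (j : ℝ) ^ e)

lemma lam_set2 (c : ℕ → ℝ) (y : V → ℝ) {u v : V} (h : u ≠ v) :
    ∃ A B C : ℝ, ∀ s t, lam c (set2 y u v s t) = A + (s + t) * B + s * t * C := by
  refine ⟨off (fun T => c T.card * (T.card.factorial : ℝ)) y u v,
    off (fun T => c (insert u T).card * ((insert u T).card.factorial : ℝ)) y u v,
    off (fun T => c (insert u (insert v T)).card
      * ((insert u (insert v T)).card.factorial : ℝ)) y u v, fun s t => ?_⟩
  unfold lam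
  rw [form_set2 _ y h]
  have : off (fun T => c (insert v T).card * ((insert v T).card.factorial : ℝ)) y u v
      = off (fun T => c (insert u T).card * ((insert u T).card.factorial : ℝ)) y u v := by
    refine sum_congr rfl fun T hT => ?_
    have h1 : u ∉ T := fun hx => by simpa using mem_powerset.1 hT hx
    have h2 : v ∉ T := fun hx => by simpa using mem_powerset.1 hT hx
    simp only [card_insert_of_notMem h1, card_insert_of_notMem h2]
  rw [this]; ring

/-- a two-part move with two outcomes -/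
lemma lam_mix (c : ℕ → ℝ) (y : V → ℝ) {u v : V} (h : u ≠ v) {s₁ t₁ s₂ t₂ θ : ℝ}
    (h1 : s₁ + t₁ = y u + y v) (h2 : s₂ + t₂ = y u + y v)
    (h3 : y u * y v = θ * (s₁ * t₁) + (1 - θ) * (s₂ * t₂)) :
    lam c y = θ * lam c (set2 y u v s₁ t₁) + (1 - θ) * lam c (set2 y u v s₂ t₂) := by
  obtain ⟨A, B, C, hABC⟩ := lam_set2 c y h
  have := hABC (y u) (y v)
  rw [set2_self] at this
  rw [this, hABC, hABC, h1, h2, h3]; ring

lemma lam_uniform (c : ℕ → ℝ) (y : V → ℝ) (S : Finset V) (h0 : ∀ x, x ∉ S → y x = 0)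
    (h1 : ∀ x ∈ S, y x = 1 / (S.card : ℝ)) : lam c y = tur c S.card := by
  unfold lam form tur
  have e1 : ∑ T : Finset V, c T.card * (T.card.factorial : ℝ) * ∏ x ∈ T, y x
      = ∑ T ∈ S.powerset, c T.card * (T.card.factorial : ℝ) * ∏ x ∈ T, y x := by
    symm
    refine sum_subset (subset_univ _) fun T _ hT => ?_
    rw [mem_powerset, not_subset] at hT
    obtain ⟨x, hx, hxS⟩ := hT
    rw [prod_eq_zero hx (h0 x hxS), mul_zero]
  have e2 : ∑ T ∈ S.powerset, c T.card * (T.card.factorial : ℝ) * ∏ x ∈ T, y x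
      = ∑ T ∈ S.powerset, (fun e : ℕ => c e * (e.factorial : ℝ) * (1 / (S.card : ℝ)) ^ e) T.card := by
    refine sum_congr rfl fun T hT => ?_
    rw [prod_congr rfl fun x hx => h1 x (mem_powerset.1 hT hx), prod_const]
  rw [e1, e2, sum_powerset_apply_card
    (fun e : ℕ => c e * (e.factorial : ℝ) * (1 / (S.card : ℝ)) ^ e)]
  refine sum_congr rfl fun e _ => ?_
  rw [Nat.descFactorial_eq_factorial_mul_choose, nsmul_eq_mul]
  push_cast
  rw [one_div, inv_pow]; ring

/-- top coefficient bound; it contains the nonnegativity of the functional -/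
lemma lam_top (c : ℕ → ℝ) (H : ∀ j, 1 ≤ j → 0 ≤ tur c j) :
    ∀ (n : ℕ) (S : Finset V), S.card = n → ∀ (d : ℕ) (y : V → ℝ), (∀ x, 0 ≤ y x) → ∑ x, y x = 1 →
      (∀ x, x ∉ S → y x = 0) → (S.filter (fun x => y x ≠ 1 / (n : ℝ))).card ≤ d →
      (n : ℝ) ^ n * (∏ x ∈ S, y x) * tur c n ≤ lam c y := by
  intro n
  induction n with
  | zero =>
    intro S hS d y _ hs h0 _
    rw [card_eq_zero] at hS
    have : ∑ x, y x = 0 := sum_eq_zero fun x _ => h0 x (by simp [hS])
    linarith
  | succ n ihn =>
    intro S hS d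
    have hn : (0 : ℝ) < ((n + 1 : ℕ) : ℝ) := by positivity
    have huni : ∀ y : V → ℝ, (∀ x, x ∉ S → y x = 0) → (∀ x ∈ S, y x = 1 / ((n + 1 : ℕ) : ℝ)) →
        ((n + 1 : ℕ) : ℝ) ^ (n + 1) * (∏ x ∈ S, y x) * tur c (n + 1) ≤ lam c y := by
      intro y h0 h1
      rw [lam_uniform c y S h0 (by rw [hS]; exact h1), hS, prod_congr rfl h1, prod_const, hS,
        ← mul_pow, mul_one_div_cancel hn.ne', one_pow, one_mul]
    induction d with
    | zero =>
      intro y _ _ h0 hd
      refine huni y h0 fun x hx => ?_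
      by_contra hne
      have : x ∈ S.filter (fun x => y x ≠ 1 / ((n + 1 : ℕ) : ℝ)) := mem_filter.2 ⟨hx, hne⟩
      rw [Nat.le_zero, card_eq_zero] at hd
      rw [hd] at this
      exact notMem_empty _ this
    | succ d ihd =>
      intro y hy hs h0 hd
      by_cases hall : ∀ x ∈ S, y x = 1 / ((n + 1 : ℕ) : ℝ)
      · exact huni y h0 hall
      set p : ℝ := 1 / ((n + 1 : ℕ) : ℝ) with hp
      have hp0 : 0 < p := by positivity
      have hsS : ∑ x ∈ S, y x = 1 := by
        rw [← hs]; exact sum_subset (subset_univ _) fun x _ hx => h0 x hx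
      have hsp : ∑ _x ∈ S, p = 1 := by
        rw [sum_const, hS, nsmul_eq_mul, hp, mul_one_div_cancel hn.ne']
      have ha : ∃ a ∈ S, y a < p := by
        by_contra hcon
        push Not at hcon
        apply hall
        have := (sum_eq_sum_iff_of_le hcon).1 (by rw [hsp, hsS])
        exact fun x hx => (this x hx).symm
      have hb : ∃ b ∈ S, p < y b := by
        by_contra hcon
        push Not at hcon
        apply hall
        exact (sum_eq_sum_iff_of_le hcon).1 (by rw [hsp, hsS])
      obtain ⟨a, haS, ha⟩ := ha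
      obtain ⟨b, hbS, hb⟩ := hb
      have hab : a ≠ b := fun h => by rw [h] at ha; linarith
      have hq : 0 < y a + y b - p := by linarith [hy a]
      set θ := y a * y b / (p * (y a + y b - p)) with hθ
      have hθ0 : 0 ≤ θ := div_nonneg (mul_nonneg (hy a) (hy b)) (by positivity)
      have hθ1 : θ ≤ 1 := by
        rw [hθ, div_le_one (by positivity)]; nlinarith
      have hθm : θ * (p * (y a + y b - p)) = y a * y b := div_mul_cancel₀ _ (by positivity)
      have hmix := lam_mix c y hab (s₁ := p) (t₁ := y a + y b - p) (s₂ := 0) (t₂ := y a + y b)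
        (θ := θ) (by ring) (by ring) (by rw [hθm]; ring)
      have h1 : ((n + 1 : ℕ) : ℝ) ^ (n + 1) * (∏ x ∈ S, set2 y a b p (y a + y b - p) x)
          * tur c (n + 1) ≤ lam c (set2 y a b p (y a + y b - p)) := by
        refine ihd _ (set2_nonneg hy hab hp0.le hq.le) (by rw [sum_set2 y hab, hs]; ring)
          (fun x hx => ?_) ?_
        · have hxa : x ≠ a := fun h => hx (by rw [h]; exact haS)
          have hxb : x ≠ b := fun h => hx (by rw [h]; exact hbS)
          rw [set2_ne y hxa hxb]; exact h0 x hx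
        · have hsub : S.filter (fun x => set2 y a b p (y a + y b - p) x ≠ p)
              ⊆ (S.filter (fun x => y x ≠ p)).erase a := by
            intro x hx
            rw [mem_filter] at hx
            have hxa : x ≠ a := fun h => hx.2 (by rw [h, set2_u y hab])
            refine mem_erase.2 ⟨hxa, mem_filter.2 ⟨hx.1, ?_⟩⟩
            by_cases hxb : x = b
            · rw [hxb]; exact hb.ne'
            · rw [← set2_ne y hxa hxb p (y a + y b - p)]; exact hx.2
          have := card_le_card hsub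
          rw [card_erase_of_mem (mem_filter.2 ⟨haS, ha.ne⟩)] at this
          omega
      have h2 : 0 ≤ lam c (set2 y a b 0 (y a + y b)) := by
        have hnn := set2_nonneg hy hab le_rfl (add_nonneg (hy a) (hy b))
        have hc : (S.erase a).card = n := by rw [card_erase_of_mem haS, hS]; rfl
        have hn1 : 1 ≤ n := by
          rw [← hc]; exact card_pos.2 ⟨b, mem_erase.2 ⟨hab.symm, hbS⟩⟩
        refine le_trans ?_ (ihn (S.erase a) hc _ _ hnn (by rw [sum_set2 y hab, hs]; ring)
          (fun x hx => ?_) le_rfl)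
        · exact mul_nonneg (mul_nonneg (by positivity) (prod_nonneg fun x _ => hnn x)) (H n hn1)
        · by_cases hxa : x = a
          · rw [hxa, set2_u y hab]
          · have hxS : x ∉ S := fun h => hx (mem_erase.2 ⟨hxa, h⟩)
            have hxb : x ≠ b := fun h => hxS (by rw [h]; exact hbS)
            rw [set2_ne y hxa hxb]; exact h0 x hxS
      have hbS' : b ∈ S.erase a := mem_erase.2 ⟨hab.symm, hbS⟩
      have hprod : ∀ s t : ℝ, ∏ x ∈ S, set2 y a b s t x
          = s * t * ∏ x ∈ (S.erase a).erase b, y x := by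
        intro s t
        rw [← mul_prod_erase S _ haS, ← mul_prod_erase (S.erase a) _ hbS', set2_u y hab, set2_v,
          mul_assoc]
        congr 2
        refine prod_congr rfl fun x hx => ?_
        simp only [mem_erase] at hx
        exact set2_ne y hx.2.1 hx.1 s t
      have hprod0 := hprod (y a) (y b)
      rw [set2_self] at hprod0
      rw [hprod] at h1
      rw [hmix, hprod0, ← hθm]
      have h3 := mul_le_mul_of_nonneg_left h1 hθ0
      have h4 := mul_nonneg (sub_nonneg.2 hθ1) h2
      nlinarith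

lemma lam_nonneg (c : ℕ → ℝ) (H : ∀ j, 1 ≤ j → 0 ≤ tur c j) {y : V → ℝ} (hy : ∀ x, 0 ≤ y x)
    (hs : ∑ x, y x = 1) : 0 ≤ lam c y := by
  have hne : 1 ≤ (univ : Finset V).card := by
    by_contra h
    have : (univ : Finset V) = ∅ := card_eq_zero.1 (by omega)
    rw [this] at hs; simp at hs
  refine le_trans ?_ (lam_top c H _ univ rfl _ y hy hs (fun x hx => absurd (mem_univ x) hx) le_rfl)
  exact mul_nonneg (mul_nonneg (by positivity) (prod_nonneg fun x _ => hy x)) (H _ hne)

/-- moving weight from a lighter part to a heavier one costs a bounded factor -/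
lemma lam_absorb (c : ℕ → ℝ) (H : ∀ j, 1 ≤ j → 0 ≤ tur c j) {y : V → ℝ} (hy : ∀ x, 0 ≤ y x)
    (hs : ∑ x, y x = 1) {q b : V} (hqb : q ≠ b) {γ δ : ℝ} (hγ : 0 < γ) (hg : y b + γ ≤ y q)
    (hδ : 0 ≤ δ) (hδb : δ ≤ y b) :
    Real.exp (-(4 * δ / γ)) * lam c (set2 y q b (y q + δ) (y b - δ)) ≤ lam c y := by
  have hd : 0 < y q - y b := by linarith
  set θ := ((y q - y b) / (y q - y b + 2 * δ)) ^ 2 with hθ
  have hden : 0 < y q - y b + 2 * δ := by linarith
  have hθ1 : θ ≤ 1 := by
    rw [hθ]
    refine pow_le_one₀ (by positivity) ?_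
    rw [div_le_one hden]; linarith
  have hmix := lam_mix c y hqb (s₁ := y q + δ) (t₁ := y b - δ) (s₂ := (y q + y b) / 2)
    (t₂ := (y q + y b) / 2) (θ := θ) (by ring) (by ring) (by rw [hθ]; field_simp; ring)
  have h1 : 0 ≤ lam c (set2 y q b (y q + δ) (y b - δ)) :=
    lam_nonneg c H (set2_nonneg hy hqb (by linarith [hy q]) (by linarith))
      (by rw [sum_set2 y hqb, hs]; ring)
  have h2 : 0 ≤ lam c (set2 y q b ((y q + y b) / 2) ((y q + y b) / 2)) :=
    lam_nonneg c H (set2_nonneg hy hqb (by linarith [hy q, hy b]) (by linarith [hy q, hy b]))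
      (by rw [sum_set2 y hqb, hs]; ring)
  have h3 : Real.exp (-(4 * δ / γ)) ≤ θ := by
    have e1 : Real.exp (-(4 * δ / γ)) = (Real.exp (-(2 * δ / γ))) ^ 2 := by
      rw [← Real.exp_nat_mul]; congr 1; push_cast; ring
    rw [e1, hθ]
    refine pow_le_pow_left₀ (Real.exp_pos _).le ?_ 2
    rw [Real.exp_neg, le_div_iff₀ hden, inv_mul_le_iff₀ (Real.exp_pos _)]
    have e2 : 2 * δ / γ + 1 ≤ Real.exp (2 * δ / γ) := Real.add_one_le_exp _
    have e3 : 2 * δ ≤ 2 * δ / γ * (y q - y b) := by
      rw [div_mul_eq_mul_div, le_div_iff₀ hγ]; nlinarith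
    nlinarith
  rw [hmix]
  have h4 := mul_le_mul_of_nonneg_right h3 h1
  have h5 := mul_nonneg (sub_nonneg.2 hθ1) h2
  linarith

end Pool.Agent.TurSp
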