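import Pool.Agent.TurSp.Sample

/-! From finite graphs to graphons. -/

namespace Pool.Agent.TurSp
open Finset MeasureTheory Filter Topology

variable {W : unitInterval → unitInterval → ℝ}

lemma tail_succ (e : ℕ) (x : ℝ) : tail (e + 1) x = tail e x * (1 - e * x) := by
  unfold tail
  cases e with
  | zero => simp
  | succ e => rw [prod_Ico_succ_top (by omega)]

lemma desc_eq_tail {i : ℕ} (hi : 1 ≤ i) (e : ℕ) :
    (i.descFactorial e : ℝ) / (i : ℝ) ^ e = tail e (1 / (i : ℝ)) := by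
  have h0 : (i : ℝ) ≠ 0 := by positivity
  induction e with
  | zero => simp [tail]
  | succ e ih =>
    rw [tail_succ, ← ih, Nat.descFactorial_succ]
    by_cases h : e ≤ i
    · push_cast [Nat.cast_sub h]
      field_simp
      ring
    · rw [Nat.descFactorial_eq_zero_iff_lt.2 (by omega)]; simp

lemma tail_nonneg {i : ℕ} (hi : 1 ≤ i) (e : ℕ) : 0 ≤ tail e (1 / (i : ℝ)) := by
  rw [← desc_eq_tail hi]; positivity

lemma tail_le_one {i : ℕ} (hi : 1 ≤ i) (e : ℕ) : tail e (1 / (i : ℝ)) ≤ 1 := by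
  rw [← desc_eq_tail hi, div_le_one (by positivity)]
  exact_mod_cast Nat.descFactorial_le_pow i e

lemma tail_eq_zero {i e : ℕ} (hi : 1 ≤ i) (h : i < e) : tail e (1 / (i : ℝ)) = 0 := by
  rw [← desc_eq_tail hi, Nat.descFactorial_eq_zero_iff_lt.2 h]; simp

lemma tail_pos {i e : ℕ} (hi : 1 ≤ i) (h : e ≤ i) : 0 < tail e (1 / (i : ℝ)) := by
  rw [← desc_eq_tail hi]
  have := Nat.descFactorial_pos.2 h
  positivity

lemma tendsto_tail (e : ℕ) : Tendsto (fun N : ℕ => tail e (1 / (N : ℝ))) atTop (𝓝 1) := by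
  have hc : Continuous (tail e) := by unfold tail; fun_prop
  have h0 : tail e 0 = 1 := by simp [tail]
  have := (hc.tendsto 0).comp (tendsto_one_div_atTop_nhds_zero_nat (𝕜 := ℝ))
  rwa [h0] at this

lemma choose_eq_tail {N : ℕ} (hN : 1 ≤ N) (e : ℕ) :
    (1 / (N : ℝ)) ^ e * (N.choose e : ℝ) = tail e (1 / (N : ℝ)) / (e.factorial : ℝ) := by
  rw [← desc_eq_tail hN, Nat.descFactorial_eq_factorial_mul_choose, one_div, inv_pow]
  push_cast
  field_simp

lemma tendsto_choose (e : ℕ) : Tendsto (fun N : ℕ => (1 / (N : ℝ)) ^ e * (N.choose e : ℝ)) atTop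
    (𝓝 (1 / (e.factorial : ℝ))) :=
  ((tendsto_tail e).div_const _).congr'
    (by filter_upwards [eventually_ge_atTop 1] with N hN using (choose_eq_tail hN e).symm)

lemma tendsto_choose_sub (e : ℕ) :
    Tendsto (fun N : ℕ => (1 / (N : ℝ)) ^ e * ((N - e).choose e : ℝ)) atTop
      (𝓝 (1 / (e.factorial : ℝ))) := by
  have h1 := (tendsto_choose e).comp (tendsto_sub_atTop_nat e)
  have h2 : Tendsto (fun N : ℕ => (1 - (e : ℝ) / N) ^ e) atTop (𝓝 1) := by
    have := ((tendsto_const_nhds (x := (1 : ℝ))).sub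
      (tendsto_const_div_atTop_nhds_zero_nat (e : ℝ))).pow e
    simpa using this
  have h3 := h2.mul h1
  rw [one_mul] at h3
  refine h3.congr' ?_
  filter_upwards [eventually_ge_atTop (e + 1)] with N hN
  have h4 : ((N - e : ℕ) : ℝ) = N - e := Nat.cast_sub (by omega)
  have h5 : (0 : ℝ) < ((N - e : ℕ) : ℝ) := by exact_mod_cast (by omega : 0 < N - e)
  have h6 : (0 : ℝ) < N := by exact_mod_cast (by omega : 0 < N)
  simp only [Function.comp]
  rw [← mul_assoc, ← mul_pow]
  congr 2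
  rw [h4] at h5 ⊢
  field_simp

lemma lamG_eq_sum {N : ℕ} (G : SimpleGraph (Fin N)) (c : ℕ → ℝ) (w : Fin N → ℝ) :
    lamG G c w = ∑ e ∈ range (N + 1), c e * (e.factorial : ℝ) * cl G e w := by
  unfold lamG cl form
  simp only [mul_sum]
  rw [sum_comm]
  refine sum_congr rfl fun T _ => ?_
  have hT : T.card ∈ range (N + 1) := by
    have := card_le_univ T
    rw [Fintype.card_fin] at this
    exact mem_range.2 (by omega)
  rw [sum_eq_single_of_mem _ hT fun e _ he => by simp [Ne.symm he]]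
  by_cases h : G.IsClique (T : Set (Fin N)) <;> simp [h]

/-- expected squared deviation of the clique weight -/
noncomputable def dev (W : unitInterval → unitInterval → ℝ) (e N : ℕ) : ℝ :=
  ∑ S ∈ (pairs (univ : Finset (Fin N))).powerset,
    pr W S * (cl (gr S) e (un N) - tK e W / (e.factorial : ℝ)) ^ 2

lemma tendsto_dev (hW : IsGraphon W) (e : ℕ) : Tendsto (dev W e) atTop (𝓝 0) := by
  set a := tK e W / (e.factorial : ℝ) with ha
  have h1 := tendsto_choose e
  have h2 := tendsto_choose_sub e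
  have h3 := ((h1.mul (h1.sub (h2.mul_const (1 - tK e W ^ 2)))).sub
    ((h1.mul_const (tK e W)).const_mul (2 * a))).add_const (a ^ 2)
  have e0 : 1 / (e.factorial : ℝ) * (1 / (e.factorial : ℝ)
      - 1 / (e.factorial : ℝ) * (1 - tK e W ^ 2))
      - 2 * a * (1 / (e.factorial : ℝ) * tK e W) + a ^ 2 = 0 := by rw [ha]; ring
  rw [e0] at h3
  refine squeeze_zero (fun N => sum_nonneg fun S _ => mul_nonneg (pr_nonneg hW S) (sq_nonneg _))
    (fun N => ?_) h3
  have m0 := sum_pr_one (N := N) hW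
  have m1 := first_moment (N := N) hW e
  have m2 := second_moment (N := N) hW e
  have e1 : dev W e N
      = ∑ S ∈ (pairs (univ : Finset (Fin N))).powerset, pr W S * cl (gr S) e (un N) ^ 2
        - 2 * a * ∑ S ∈ (pairs (univ : Finset (Fin N))).powerset, pr W S * cl (gr S) e (un N)
        + a ^ 2 * ∑ S ∈ (pairs (univ : Finset (Fin N))).powerset, pr W S := by
    unfold dev
    rw [mul_sum, mul_sum, ← sum_sub_distrib, ← sum_add_distrib]
    exact sum_congr rfl fun S _ => by ring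
  rw [e1, m0, m1]
  nlinarith

lemma tendsto_lam (hW : IsGraphon W) {c : ℕ → ℝ} (hc : Summable fun e => |c e|) :
    Tendsto (fun N : ℕ => ∑ S ∈ (pairs (univ : Finset (Fin N))).powerset,
      pr W S * lamG (gr S) c (un N)) atTop (𝓝 (∑' e, c e * tK e W)) := by
  have h1 : Tendsto (fun N : ℕ => ∑' e, c e * tK e W * tail e (1 / (N : ℝ))) atTop
      (𝓝 (∑' e, c e * tK e W)) := by
    refine tendsto_tsum_of_dominated_convergence hc (fun e => ?_) ?_
    · simpa using (tendsto_tail e).const_mul (c e * tK e W)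
    · filter_upwards [eventually_ge_atTop 1] with N hN e
      rw [Real.norm_eq_abs, abs_mul, abs_mul, abs_of_nonneg (tK_nonneg hW e),
        abs_of_nonneg (tail_nonneg hN e), mul_assoc]
      exact mul_le_of_le_one_right (abs_nonneg _)
        (mul_le_one₀ (tK_le_one hW e) (tail_nonneg hN e) (tail_le_one hN e))
  refine h1.congr' ?_
  filter_upwards [eventually_ge_atTop 1] with N hN
  rw [tsum_eq_sum (s := range (N + 1)) fun e he => by
    rw [tail_eq_zero hN (by simpa using he), mul_zero]]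
  simp only [lamG_eq_sum, mul_sum]
  rw [sum_comm]
  refine sum_congr rfl fun e _ => ?_
  have m1 := first_moment (N := N) hW e
  rw [← mul_assoc, choose_eq_tail hN] at m1
  have : ∑ S ∈ (pairs (univ : Finset (Fin N))).powerset,
      pr W S * (c e * (e.factorial : ℝ) * cl (gr S) e (un N))
      = c e * (e.factorial : ℝ) * ∑ S ∈ (pairs (univ : Finset (Fin N))).powerset,
        pr W S * cl (gr S) e (un N) := by
    rw [mul_sum]; exact sum_congr rfl fun S _ => by ring
  rw [this, m1]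
  field_simp

lemma transfer (hW : IsGraphon W) {c : ℕ → ℝ} (hc : Summable fun e => |c e|) (A M : ℝ) (k : ℕ)
    (h : ∀ N : ℕ, 1 ≤ N → ∀ G : SimpleGraph (Fin N), A ≤ lamG G c (un N)
      + M * ((cl G 2 (un N) - tK 2 W / (Nat.factorial 2 : ℝ)) ^ 2
        + (cl G 3 (un N) - tK 3 W / (Nat.factorial 3 : ℝ)) ^ 2
        + (cl G k (un N) - tK k W / (k.factorial : ℝ)) ^ 2)) :
    A ≤ ∑' e, c e * tK e W := by
  have h1 := (tendsto_lam hW hc).add
    ((((tendsto_dev hW 2).add (tendsto_dev hW 3)).add (tendsto_dev hW k)).const_mul M)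
  simp only [add_zero, mul_zero] at h1
  refine ge_of_tendsto h1 ?_
  filter_upwards [eventually_ge_atTop 1] with N hN
  have h2 := sum_le_sum fun S (_ : S ∈ (pairs (univ : Finset (Fin N))).powerset) =>
    mul_le_mul_of_nonneg_left (h N hN (gr S)) (pr_nonneg hW S)
  rw [← sum_mul, sum_pr_one hW, one_mul] at h2
  refine le_trans h2 (le_of_eq ?_)
  unfold dev
  rw [← sum_add_distrib, ← sum_add_distrib, mul_sum, ← sum_add_distrib]
  exact sum_congr rfl fun S _ => by ring

lemma un_nonneg (N : ℕ) (x : Fin N) : 0 ≤ un N x := by unfold un; positivity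

lemma sum_un {N : ℕ} (hN : 1 ≤ N) : ∑ x, un N x = 1 := by
  have : (N : ℝ) ≠ 0 := by positivity
  simp [un, this]

theorem graphon_nonneg (hW : IsGraphon W) {c : ℕ → ℝ} (hc : Summable fun e => |c e|)
    (H : ∀ i, 1 ≤ i → 0 ≤ tur c i) : 0 ≤ ∑' e, c e * tK e W :=
  transfer hW hc 0 0 0 fun N hN G => by
    simpa using lamG_nonneg G c H (un_nonneg N) (sum_un hN)

theorem graphon_bound {k : ℕ} (hk : 2 ≤ k) {η : ℝ} (hη : 0 < η) : ∃ C : ℝ, 0 < C ∧
    ∀ (W : unitInterval → unitInterval → ℝ) (c : ℕ → ℝ) (j : ℕ), IsGraphon W →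
      (Summable fun e => |c e|) → (∀ i, 1 ≤ i → 0 ≤ tur c i) → 1 ≤ j → j ≤ k → η ≤ tK k W →
      η ≤ tK 3 W - tK 2 W * (2 * tK 2 W - 1) → C * tur c j ≤ ∑' e, c e * tK e W := by
  have hf : (1 : ℝ) ≤ (k.factorial : ℝ) := by exact_mod_cast k.factorial_pos
  set ρ : ℝ := η / (48 * k.factorial) with hρ
  have hρ0 : 0 < ρ := by positivity
  obtain ⟨C, hC, h⟩ := finite_bound hk (by positivity : 0 < 24 * ρ)
  refine ⟨C, hC, fun W c j hW hc H hj1 hjk h1 h2 => ?_⟩
  have hA : 0 ≤ C * tur c j := mul_nonneg hC.le (H j hj1)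
  have hM : 0 ≤ C * tur c j / ρ ^ 2 := by positivity
  refine transfer hW hc _ (C * tur c j / ρ ^ 2) k fun N hN G => ?_
  have s2 := sq_nonneg (cl G 2 (un N) - tK 2 W / (Nat.factorial 2 : ℝ))
  have s3 := sq_nonneg (cl G 3 (un N) - tK 3 W / (Nat.factorial 3 : ℝ))
  have sk := sq_nonneg (cl G k (un N) - tK k W / (k.factorial : ℝ))
  by_cases hQ : ρ ^ 2 ≤ (cl G 2 (un N) - tK 2 W / (Nat.factorial 2 : ℝ)) ^ 2
      + (cl G 3 (un N) - tK 3 W / (Nat.factorial 3 : ℝ)) ^ 2
      + (cl G k (un N) - tK k W / (k.factorial : ℝ)) ^ 2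
  · have h3 := lamG_nonneg G c H (un_nonneg N) (sum_un hN)
    have h4 : C * tur c j / ρ ^ 2 * ρ ^ 2 = C * tur c j := by field_simp
    have h5 := mul_le_mul_of_nonneg_left hQ hM
    linarith
  · push Not at hQ
    have a2 := abs_le_of_sq_le_sq'
      (by linarith : (cl G 2 (un N) - tK 2 W / (Nat.factorial 2 : ℝ)) ^ 2 ≤ ρ ^ 2) hρ0.le
    have a3 := abs_le_of_sq_le_sq'
      (by linarith : (cl G 3 (un N) - tK 3 W / (Nat.factorial 3 : ℝ)) ^ 2 ≤ ρ ^ 2) hρ0.le
    have ak := abs_le_of_sq_le_sq'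
      (by linarith : (cl G k (un N) - tK k W / (k.factorial : ℝ)) ^ 2 ≤ ρ ^ 2) hρ0.le
    have f2 : (Nat.factorial 2 : ℝ) = 2 := by norm_num [Nat.factorial]
    have f3 : (Nat.factorial 3 : ℝ) = 6 := by norm_num [Nat.factorial]
    have b1 := cl_le_one G 2 (un_nonneg N) (sum_un hN).le
    have b2 := cl_nonneg G 2 (un_nonneg N)
    have b3 := tK_le_one hW 2
    have b4 := tK_nonneg hW 2
    have b5 : 48 * ρ = η / k.factorial := by rw [hρ]; field_simp
    have b6 : η / k.factorial ≤ η := div_le_self hη.le hf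
    have b7 : η / k.factorial ≤ tK k W / k.factorial :=
      div_le_div_of_nonneg_right h1 (by positivity)
    have h3 := h (Fin N) G c (un N) j H hj1 hjk (un_nonneg N) (sum_un hN) (by linarith)
      (by rw [f2] at a2; rw [f3] at a3; nlinarith)
    have h4 := mul_nonneg hM (add_nonneg (add_nonneg s2 s3) sk)
    linarith

end Pool.Agent.TurSp
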