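import Pool.Agent.TurSp.Gap

/-! Symmetrisation moves on weighted graphs. -/

set_option linter.unusedSectionVars false

namespace Pool.Agent.TurSp
open Finset

variable {V : Type} [Fintype V] [DecidableEq V]

open Classical in
/-- the functional `∑ c e * t(K_e, G, w)` -/
noncomputable def lamG (G : SimpleGraph V) (c : ℕ → ℝ) (w : V → ℝ) : ℝ :=
  form (fun T => if G.IsClique (T : Set V) then c T.card * (T.card.factorial : ℝ) else 0) w

open Classical in
/-- total weight of the cliques with `e` vertices -/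
noncomputable def cl (G : SimpleGraph V) (e : ℕ) (w : V → ℝ) : ℝ :=
  form (fun T => if G.IsClique (T : Set V) ∧ T.card = e then 1 else 0) w

open Classical in
/-- total weight of the `k`-cliques with two vertices that are not adjacent to `u` -/
noncomputable def tau (G : SimpleGraph V) (k : ℕ) (u : V) (w : V → ℝ) : ℝ :=
  form (fun T => if G.IsClique (T : Set V) ∧ T.card = k ∧
    ∃ a ∈ T, ∃ b ∈ T, a ≠ b ∧ ¬ G.Adj u a ∧ ¬ G.Adj u b then 1 else 0) w

/-- the support of `m` is a clique -/
def CS (G : SimpleGraph V) (m : V → ℝ) : Prop :=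
  ∀ u v, u ≠ v → 0 < m u → 0 < m v → G.Adj u v

/-- weight `α` at the vertex `u` -/
def sp (u : V) (α : ℝ) : V → ℝ := fun x => if x = u then α else 0

lemma form_ind (p : Finset V → Prop) [DecidablePred p] (w : V → ℝ) :
    form (fun T => if p T then 1 else 0) w = ∑ T ∈ univ.filter p, ∏ x ∈ T, w x := by
  unfold form
  rw [sum_filter]
  refine sum_congr rfl fun T _ => ?_
  by_cases h : p T <;> simp [h]

lemma form_aff {G : SimpleGraph V} {κ : Finset V → ℝ}
    (hκ : ∀ T : Finset V, ¬ G.IsClique (T : Set V) → κ T = 0)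
    (w : V → ℝ) {u v : V} (h : u ≠ v) (hn : ¬ G.Adj u v) (s t : ℝ) :
    form κ (set2 w u v s t) = off κ w u v + s * off (fun T => κ (insert u T)) w u v
      + t * off (fun T => κ (insert v T)) w u v := by
  rw [form_set2 κ w h]
  have : off (fun T => κ (insert u (insert v T))) w u v = 0 := by
    refine sum_eq_zero fun T _ => ?_
    have : κ (insert u (insert v T)) = 0 :=
      hκ _ fun hc => hn (hc (by simp) (by simp) h)
    simp [this]
  rw [this]; ring

lemma add_set2 (b m : V → ℝ) {u v : V} (h : u ≠ v) (s t : ℝ) :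
    b + set2 m u v s t = set2 (b + m) u v (b u + s) (b v + t) := by
  funext x
  by_cases h1 : x = v
  · rw [h1, Pi.add_apply, set2_v, set2_v]
  by_cases h2 : x = u
  · rw [h2, Pi.add_apply, set2_u _ h, set2_u _ h]
  rw [Pi.add_apply, set2_ne _ h2 h1, set2_ne _ h2 h1, Pi.add_apply]

lemma form_move {G : SimpleGraph V} {κ : Finset V → ℝ}
    (hκ : ∀ T : Finset V, ¬ G.IsClique (T : Set V) → κ T = 0)
    (b m : V → ℝ) {u v : V} (h : u ≠ v) (hn : ¬ G.Adj u v) :
    (m u + m v) * form κ (b + m) = m u * form κ (b + set2 m u v (m u + m v) 0)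
      + m v * form κ (b + set2 m u v 0 (m u + m v)) := by
  have e := form_aff hκ (b + m) h hn ((b + m) u) ((b + m) v)
  rw [set2_self] at e
  rw [e, add_set2 b m h, add_set2 b m h, form_aff hκ _ h hn, form_aff hκ _ h hn]
  simp only [Pi.add_apply]; ring

/-- reduction to weightings supported on a clique -/
lemma zykov (G : SimpleGraph V) (σ : ℝ) (Ψ : (V → ℝ) → ℝ)
    (hmove : ∀ m : V → ℝ, (∀ x, 0 ≤ m x) → ∑ x, m x = σ → ∀ u v, u ≠ v → ¬ G.Adj u v →
      m u * Ψ (set2 m u v (m u + m v) 0) + m v * Ψ (set2 m u v 0 (m u + m v))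
        ≤ (m u + m v) * Ψ m)
    (hbase : ∀ m : V → ℝ, (∀ x, 0 ≤ m x) → ∑ x, m x = σ → CS G m → 0 ≤ Ψ m) :
    ∀ m : V → ℝ, (∀ x, 0 ≤ m x) → ∑ x, m x = σ → 0 ≤ Ψ m := by
  have key : ∀ (n : ℕ) (m : V → ℝ), (univ.filter (fun x => 0 < m x)).card ≤ n →
      (∀ x, 0 ≤ m x) → ∑ x, m x = σ → 0 ≤ Ψ m := by
    intro n
    induction n with
    | zero =>
      intro m hn hm hs
      refine hbase m hm hs fun u v _ hu _ => ?_
      have : u ∈ univ.filter (fun x => 0 < m x) := mem_filter.2 ⟨mem_univ _, hu⟩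
      rw [Nat.le_zero, card_eq_zero] at hn
      rw [hn] at this; exact absurd this (notMem_empty _)
    | succ n ih =>
      intro m hn hm hs
      by_cases hc : CS G m
      · exact hbase m hm hs hc
      unfold CS at hc
      push Not at hc
      obtain ⟨u, v, huv, hu, hv, hadj⟩ := hc
      have hu' : u ∈ univ.filter (fun x => 0 < m x) := mem_filter.2 ⟨mem_univ _, hu⟩
      have hv' : v ∈ univ.filter (fun x => 0 < m x) := mem_filter.2 ⟨mem_univ _, hv⟩
      have h1 : 0 ≤ Ψ (set2 m u v (m u + m v) 0) := by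
        refine ih _ ?_ (set2_nonneg hm huv (by linarith) le_rfl)
          (by rw [sum_set2 m huv, hs]; ring)
        have hsub : univ.filter (fun x => 0 < set2 m u v (m u + m v) 0 x)
            ⊆ (univ.filter (fun x => 0 < m x)).erase v := by
          intro x hx
          have hx := (mem_filter.1 hx).2
          have hxv : x ≠ v := fun h => by rw [h, set2_v] at hx; exact lt_irrefl _ hx
          refine mem_erase.2 ⟨hxv, ?_⟩
          by_cases hxu : x = u
          · rw [hxu]; exact hu'
          · rw [set2_ne m hxu hxv] at hx; exact mem_filter.2 ⟨mem_univ _, hx⟩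
        have := card_le_card hsub
        rw [card_erase_of_mem hv'] at this
        omega
      have h2 : 0 ≤ Ψ (set2 m u v 0 (m u + m v)) := by
        refine ih _ ?_ (set2_nonneg hm huv le_rfl (by linarith))
          (by rw [sum_set2 m huv, hs]; ring)
        have hsub : univ.filter (fun x => 0 < set2 m u v 0 (m u + m v) x)
            ⊆ (univ.filter (fun x => 0 < m x)).erase u := by
          intro x hx
          have hx := (mem_filter.1 hx).2
          have hxu : x ≠ u := fun h => by rw [h, set2_u m huv] at hx; exact lt_irrefl _ hx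
          refine mem_erase.2 ⟨hxu, ?_⟩
          by_cases hxv : x = v
          · rw [hxv]; exact hv'
          · rw [set2_ne m hxu hxv] at hx; exact mem_filter.2 ⟨mem_univ _, hx⟩
        have := card_le_card hsub
        rw [card_erase_of_mem hu'] at this
        omega
      have h3 := hmove m hm hs u v huv hadj
      have h4 : 0 ≤ (m u + m v) * Ψ m :=
        le_trans (add_nonneg (mul_nonneg hu.le h1) (mul_nonneg hv.le h2)) h3
      exact nonneg_of_mul_nonneg_right h4 (by linarith)
  exact fun m hm hs => key _ m le_rfl hm hs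

lemma prod_zero_of_not_clique {G : SimpleGraph V} {y : V → ℝ} (hy : ∀ x, 0 ≤ y x) (hc : CS G y)
    {T : Finset V} (hT : ¬ G.IsClique (T : Set V)) : ∏ x ∈ T, y x = 0 := by
  by_contra hne
  apply hT
  intro a ha b hb hab
  have hp : ∀ x ∈ T, 0 < y x := fun x hx =>
    lt_of_le_of_ne (hy x) fun h => hne (prod_eq_zero hx h.symm)
  exact hc a b hab (hp a ha) (hp b hb)

lemma lamG_eq {G : SimpleGraph V} (c : ℕ → ℝ) {y : V → ℝ} (hy : ∀ x, 0 ≤ y x) (hc : CS G y) :
    lamG G c y = lam c y := by
  refine sum_congr rfl fun T _ => ?_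
  by_cases hT : G.IsClique (T : Set V)
  · simp only [hT, if_true]
  · rw [prod_zero_of_not_clique hy hc hT, mul_zero, mul_zero]

lemma cl_eq {G : SimpleGraph V} (e : ℕ) {y : V → ℝ} (hy : ∀ x, 0 ≤ y x) (hc : CS G y) :
    cl G e y = esym e univ y := by
  unfold cl form esym
  rw [powersetCard_eq_filter, powerset_univ, sum_filter]
  refine sum_congr rfl fun T _ => ?_
  by_cases hT : G.IsClique (T : Set V)
  · simp only [hT, true_and]; split_ifs <;> simp
  · rw [prod_zero_of_not_clique hy hc hT]; simp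

lemma lamG_move (G : SimpleGraph V) (c : ℕ → ℝ) (b m : V → ℝ) {u v : V} (h : u ≠ v)
    (hn : ¬ G.Adj u v) :
    (m u + m v) * lamG G c (b + m) = m u * lamG G c (b + set2 m u v (m u + m v) 0)
      + m v * lamG G c (b + set2 m u v 0 (m u + m v)) :=
  form_move (G := G) (fun T hT => by simp [hT]) b m h hn

lemma tau_move (G : SimpleGraph V) (k : ℕ) (z : V) (m : V → ℝ) {u v : V} (h : u ≠ v)
    (hn : ¬ G.Adj u v) :
    (m u + m v) * tau G k z m = m u * tau G k z (set2 m u v (m u + m v) 0)
      + m v * tau G k z (set2 m u v 0 (m u + m v)) := by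
  have := form_move (G := G) (κ := fun T => by
    classical exact if G.IsClique (T : Set V) ∧ T.card = k ∧
      ∃ a ∈ T, ∃ b ∈ T, a ≠ b ∧ ¬ G.Adj z a ∧ ¬ G.Adj z b then 1 else 0)
    (fun T hT => by simp [hT]) 0 m h hn
  simp only [zero_add] at this
  exact this

lemma lamG_nonneg (G : SimpleGraph V) (c : ℕ → ℝ) (H : ∀ j, 1 ≤ j → 0 ≤ tur c j) {w : V → ℝ}
    (hw : ∀ x, 0 ≤ w x) (hs : ∑ x, w x = 1) : 0 ≤ lamG G c w := by
  refine zykov G 1 (lamG G c) (fun m _ _ u v huv hn => ?_) (fun m hm hs hc => ?_) w hw hs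
  · have := lamG_move G c 0 m huv hn
    simp only [zero_add] at this
    exact this.ge
  · rw [lamG_eq c hm hc]; exact lam_nonneg c H hm hs

lemma tau_nonneg (G : SimpleGraph V) (k : ℕ) (u : V) {m : V → ℝ} (hm : ∀ x, 0 ≤ m x) :
    0 ≤ tau G k u m :=
  form_nonneg (fun T => by split_ifs <;> norm_num) hm

lemma tau_mono (G : SimpleGraph V) (k : ℕ) (u : V) {m m' : V → ℝ} (hm : ∀ x, 0 ≤ m x)
    (h : ∀ x, m x ≤ m' x) : tau G k u m ≤ tau G k u m' :=
  form_mono (fun T => by split_ifs <;> norm_num) hm h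

open Classical in
lemma tau_le (G : SimpleGraph V) (k : ℕ) (u q : V) {m : V → ℝ} (hm : ∀ x, 0 ≤ m x)
    (h1 : ∑ x, m x ≤ 1) :
    tau G k u m ≤ ∑ z ∈ univ.filter (fun z => ¬ G.Adj u z ∧ z ≠ q), m z := by
  unfold tau
  rw [form_ind]
  refine sum_meet_le hm h1 k _ _ fun T hT => ?_
  obtain ⟨-, hk, a, ha, b, hb, hab, h2, h3⟩ := (mem_filter.1 hT).2
  refine ⟨hk, ?_⟩
  by_cases haq : a = q
  · exact ⟨b, mem_filter.2 ⟨mem_univ _, h3, fun h => hab (by rw [haq, h])⟩, hb⟩
  · exact ⟨a, mem_filter.2 ⟨mem_univ _, h2, haq⟩, ha⟩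

lemma tau_le_esym (G : SimpleGraph V) (k : ℕ) (u : V) {m : V → ℝ} (hm : ∀ x, 0 ≤ m x) :
    tau G k u m ≤ esym k univ m := by
  classical
  unfold tau esym
  rw [form_ind]
  refine sum_le_sum_of_subset_of_nonneg (fun T hT => ?_) fun T _ _ => prod_nonneg fun x _ => hm x
  exact mem_powersetCard.2 ⟨subset_univ _, (mem_filter.1 hT).2.2.1⟩

lemma sum_sp (u : V) (α : ℝ) : ∑ x, sp u α x = α := by simp [sp]

lemma sp_nonneg (u : V) {α : ℝ} (h : 0 ≤ α) (x : V) : 0 ≤ sp u α x := by
  unfold sp; split_ifs; exacts [h, le_rfl]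

/-- a heavy vertex is merged with its heaviest non-neighbour first -/
lemma fight (G : SimpleGraph V) (c : ℕ → ℝ) (H : ∀ j, 1 ≤ j → 0 ≤ tur c j) (k : ℕ) {η D : ℝ}
    (hη : 0 < η) (hD0 : 0 ≤ D)
    (hD : ∀ (y : V → ℝ) (q : V), (∀ x, 0 ≤ y x) → ∑ x, y x = 1 → η ≤ esym k univ y →
      η ≤ ∑ b ∈ univ.filter (fun b => y b + η ≤ y q), y b → D ≤ lam c y) (u : V) :
    ∀ (n : ℕ) (α : ℝ) (m : V → ℝ), (univ.filter (fun x => 0 < m x)).card ≤ n → η ≤ α →
      (∀ x, 0 ≤ m x) → α + ∑ x, m x = 1 → CS G m →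
      D * (tau G k u m - η) ≤ lamG G c (sp u α + m) := by
  classical
  have hnn : ∀ (α : ℝ) (m : V → ℝ), η ≤ α → (∀ x, 0 ≤ m x) → α + ∑ x, m x = 1 →
      0 ≤ lamG G c (sp u α + m) := by
    intro α m hα hm hs
    refine lamG_nonneg G c H (fun x => add_nonneg (sp_nonneg u (by linarith) x) (hm x)) ?_
    simp only [Pi.add_apply]; rw [sum_add_distrib, sum_sp, hs]
  have hzero : ∀ (α : ℝ) (m : V → ℝ) (q : V), η ≤ α → (∀ x, 0 ≤ m x) → α + ∑ x, m x = 1 →
      (∀ z, ¬ G.Adj u z → z ≠ q → m z = 0) →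
      D * (tau G k u m - η) ≤ lamG G c (sp u α + m) := by
    intro α m q hα hm hs h0
    have h1 := tau_le G k u q hm (by linarith)
    rw [sum_eq_zero fun z hz => h0 z (mem_filter.1 hz).2.1 (mem_filter.1 hz).2.2] at h1
    exact le_trans (mul_nonpos_of_nonneg_of_nonpos hD0 (by linarith)) (hnn α m hα hm hs)
  intro n
  induction n with
  | zero =>
    intro α m hn hα hm hs _
    refine hzero α m u hα hm hs fun z _ _ => ?_
    by_contra hne
    have : z ∈ univ.filter (fun x => 0 < m x) :=
      mem_filter.2 ⟨mem_univ _, lt_of_le_of_ne (hm z) (Ne.symm hne)⟩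
    rw [Nat.le_zero, card_eq_zero] at hn
    rw [hn] at this; exact absurd this (notMem_empty _)
  | succ n ih =>
    intro α m hn hα hm hs hc
    obtain ⟨q, hqZ, hq⟩ := exists_max_image (univ.filter (fun z => ¬ G.Adj u z)) m
      ⟨u, mem_filter.2 ⟨mem_univ _, G.irrefl⟩⟩
    have hq' : ∀ z, ¬ G.Adj u z → m z ≤ m q := fun z hz => hq z (mem_filter.2 ⟨mem_univ _, hz⟩)
    have hn' : ¬ G.Adj u q := (mem_filter.1 hqZ).2
    by_cases hq0 : m q = 0
    · exact hzero α m q hα hm hs fun z hz _ => le_antisymm (hq0 ▸ hq' z hz) (hm z)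
    have hqp : 0 < m q := lt_of_le_of_ne (hm q) (Ne.symm hq0)
    by_cases huq : u = q
    · refine hzero α m q hα hm hs fun z hz hzq => ?_
      by_contra hne
      exact hz (huq ▸ hc q z hzq.symm hqp (lt_of_le_of_ne (hm z) (Ne.symm hne)))
    have hα0 : 0 < α := by linarith
    set w1 := set2 m u q (m u) (m q + α) with hw1
    set m' := set2 m u q (m u) 0 with hm'
    have e0 : sp u α + m = set2 m u q (α + m u) (m q) := by
      funext x
      by_cases h1 : x = q
      · rw [h1, set2_v]; simp [sp, Ne.symm huq]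
      by_cases h2 : x = u
      · rw [h2, set2_u _ huq]; simp [sp]
      rw [set2_ne _ h2 h1]; simp [sp, h2]
    have e2 : sp u (α + m q) + m' = set2 m u q (α + m q + m u) 0 := by
      funext x
      by_cases h1 : x = q
      · rw [h1, set2_v, Pi.add_apply, hm', set2_v]; simp [sp, Ne.symm huq]
      by_cases h2 : x = u
      · rw [h2, set2_u _ huq, Pi.add_apply, hm', set2_u _ huq]; simp [sp]
      rw [set2_ne _ h2 h1, Pi.add_apply, hm', set2_ne _ h2 h1]; simp [sp, h2]
    have hl : (α + m q) * lamG G c (sp u α + m)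
        = m q * lamG G c w1 + α * lamG G c (sp u (α + m q) + m') := by
      rw [e0, e2, hw1]
      unfold lamG
      rw [form_aff (G := G) (fun T hT => by simp [hT]) m huq hn',
        form_aff (G := G) (fun T hT => by simp [hT]) m huq hn',
        form_aff (G := G) (fun T hT => by simp [hT]) m huq hn']
      ring
    have ht : (α + m q) * tau G k u m = m q * tau G k u w1 + α * tau G k u m' := by
      conv_lhs => rw [← set2_self m u q]
      rw [hw1, hm', set2_v]
      unfold tau
      rw [form_aff (G := G) (fun T hT => by simp [hT]) m huq hn',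
        form_aff (G := G) (fun T hT => by simp [hT]) m huq hn',
        form_aff (G := G) (fun T hT => by simp [hT]) m huq hn']
      ring
    have hm'x : ∀ x, x ≠ q → m' x = m x := by
      intro x h1
      by_cases h2 : x = u
      · rw [h2, hm', set2_u _ huq]
      · rw [hm', set2_ne _ h2 h1]
    have hw1x : ∀ x, x ≠ q → w1 x = m x := by
      intro x h1
      by_cases h2 : x = u
      · rw [h2, hw1, set2_u _ huq]
      · rw [hw1, set2_ne _ h2 h1]
    have hm'q : m' q = 0 := set2_v _ _ _ _ _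
    have hw1q : w1 q = m q + α := set2_v _ _ _ _ _
    have hpos : ∀ x, 0 < m' x → x ≠ q ∧ 0 < m x := fun x hx => by
      have h1 : x ≠ q := fun h => by rw [h, hm'q] at hx; exact lt_irrefl _ hx
      exact ⟨h1, by rwa [hm'x x h1] at hx⟩
    have h2 : D * (tau G k u m' - η) ≤ lamG G c (sp u (α + m q) + m') := by
      refine ih _ m' ?_ (by linarith) (set2_nonneg hm huq (hm u) le_rfl)
        (by rw [hm', sum_set2 m huq]; linarith)
        fun a b hab ha hb => hc a b hab (hpos a ha).2 (hpos b hb).2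
      have hsub : univ.filter (fun x => 0 < m' x) ⊆ (univ.filter (fun x => 0 < m x)).erase q :=
        fun x hx => mem_erase.2 ⟨(hpos x (mem_filter.1 hx).2).1,
          mem_filter.2 ⟨mem_univ _, (hpos x (mem_filter.1 hx).2).2⟩⟩
      have hqm : q ∈ univ.filter (fun x => 0 < m x) := mem_filter.2 ⟨mem_univ _, hqp⟩
      have := card_le_card hsub
      rw [card_erase_of_mem hqm] at this
      omega
    have hw0 : ∀ x, 0 ≤ w1 x := set2_nonneg hm huq (hm u) (by linarith)
    have hws : ∑ x, w1 x = 1 := by rw [hw1, sum_set2 m huq]; linarith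
    have hwc : CS G w1 := by
      have : ∀ x, 0 < w1 x → 0 < m x := fun x hx => by
        by_cases h : x = q
        · rw [h]; exact hqp
        · rwa [hw1x x h] at hx
      exact fun a b hab ha hb => hc a b hab (this a ha) (this b hb)
    have h1 : D * (tau G k u w1 - η) ≤ lamG G c w1 := by
      by_cases hτ : η ≤ tau G k u w1
      · have h3 := tau_le_esym G k u hw0
        have h4 := esym_le_one univ hw0 hws.le k
        have h5 : η ≤ ∑ b ∈ univ.filter (fun b => w1 b + η ≤ w1 q), w1 b := by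
          refine le_trans hτ (le_trans (tau_le G k u q hw0 hws.le)
            (sum_le_sum_of_subset_of_nonneg (fun z hz => ?_) fun x _ _ => hw0 x))
          obtain ⟨-, h6, h7⟩ := mem_filter.1 hz
          refine mem_filter.2 ⟨mem_univ _, ?_⟩
          rw [hw1x z h7, hw1q]; linarith [hq' z h6]
        have h6 := hD w1 q hw0 hws (le_trans hτ h3) h5
        rw [lamG_eq c hw0 hwc]
        nlinarith
      · exact le_trans (mul_nonpos_of_nonneg_of_nonpos hD0 (by linarith))
          (lamG_nonneg G c H hw0 hws)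
    have h3 := mul_le_mul_of_nonneg_left h1 hqp.le
    have h4 := mul_le_mul_of_nonneg_left h2 hα0.le
    refine le_of_mul_le_mul_left ?_ (by linarith : 0 < α + m q)
    have : (α + m q) * (D * (tau G k u m - η))
        = D * ((α + m q) * tau G k u m) - (α + m q) * D * η := by ring
    rw [this, ht, hl]
    linarith

/-- the same bound without the clique hypothesis -/
lemma heavy (G : SimpleGraph V) (c : ℕ → ℝ) (H : ∀ j, 1 ≤ j → 0 ≤ tur c j) (k : ℕ) {η D : ℝ}
    (hη : 0 < η) (hD0 : 0 ≤ D)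
    (hD : ∀ (y : V → ℝ) (q : V), (∀ x, 0 ≤ y x) → ∑ x, y x = 1 → η ≤ esym k univ y →
      η ≤ ∑ b ∈ univ.filter (fun b => y b + η ≤ y q), y b → D ≤ lam c y) (u : V)
    {α : ℝ} (hα : η ≤ α) {m : V → ℝ} (hm : ∀ x, 0 ≤ m x) (hs : ∑ x, m x = 1 - α) :
    D * (tau G k u m - η) ≤ lamG G c (sp u α + m) := by
  have := zykov G (1 - α) (fun m => lamG G c (sp u α + m) - D * (tau G k u m - η))
    (fun m _ _ a b hab hn => by
      have h1 := lamG_move G c (sp u α) m hab hn
      have h2 := tau_move G k u m hab hn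
      have h3 : D * ((m a + m b) * tau G k u m) = D * (m a * tau G k u (set2 m a b (m a + m b) 0)
        + m b * tau G k u (set2 m a b 0 (m a + m b))) := by rw [h2]
      linarith)
    (fun m hm hs hc => sub_nonneg.2
      (fight G c H k hη hD0 hD u _ α m le_rfl hα hm (by linarith) hc)) m hm hs
  linarith

end Pool.Agent.TurSp
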